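import Pool.Agent.W458.RK.KDefs
import Pool.Agent.W458.MF.PDefs
import Pool.Agent.W458.MF.ExDefs

/-!
# Semisimplicity for products with all varieties of small Frobenius rank: definitions
-/

set_option autoImplicit false

open CategoryTheory AlgebraicGeometry Polynomial TensorProduct

universe u v

namespace Pool.Agent.W458.RK

open Pool.Agent.H914 Pool.Agent.W534 VarClass Obj WeilCohomology

/-- Semisimplicity for the products of `X` with all varieties `U` such that the eigenvalues of the
Frobenius endomorphism `G` of `U` on the space `V` (for example the etale homology of `U`) have rank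
at most `r` over `E`: for all `c` the eigenvalue `Q ^ c` of `F ⊗ G` on `H(X) ⊗ V` is semisimple
(over all finite extensions) if the eigenvalues `Q ^ (c - i)`, `i ≤ dim X`, of `G` on `V` are
semisimple (over all finite extensions). Here `F` is the Frobenius endomorphism of `X` over the
field with `Q = p ^ (Φ.e X * s)` elements. -/
def SemisimpleTimes {k : Type u} [Field k] {𝒱 : VarClass k} {ops : CycleOps 𝒱}
    {W : WeilCohomology.{u, v} ops} {p : ℕ} (Φ : FrobSystem W p) (σ : W.K →+* ℂ) (E : Subfield ℂ)
    (r : ℕ) (X : 𝒱.Obj) : Prop :=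
  ∀ s : ℕ, 0 < s → ∀ (V : Type v) [AddCommGroup V] [Module W.K V] [Module.Finite W.K V]
    (G : Module.End W.K V), EigenvaluesOfRank σ E r G → ∀ c : ℤ,
      (∀ i ≤ X.dim, SemisimpleAt G ((p : W.K) ^ (Φ.e X * s)) (c - i)) →
        SemisimpleAt (TensorProduct.map (W.map (W534.iter (Φ.Fr X) s)).toLinearMap G)
          ((p : W.K) ^ (Φ.e X * s)) c

end Pool.Agent.W458.RK
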