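import Pool.Agent.W458.RK.KDefs
import Pool.Agent.W458.MF.PDefs

/-!
# Products with all varieties of small Frobenius rank: definitions
-/

set_option autoImplicit false

open CategoryTheory AlgebraicGeometry Polynomial TensorProduct

universe u v

namespace Pool.Agent.W458.RK

open Pool.Agent.H914 Pool.Agent.W534 VarClass Obj WeilCohomology Pool.Agent.W458.MF
  Pool.Agent.H281R3.HT

/-- The Tate conjecture for the products of `X` with all varieties `U` such that the eigenvalues of
the Frobenius endomorphism `G` of `U` on the space `V` (for example the cohomology or the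
Borel-Moore homology of `U`) have rank at most `r` over `E`: an element of `H(X) ⊗ V` is killed by
`((F ⊗ G) ^ M - Q ^ (c M)) ^ a` for some `M > 0` if and only if it is a combination of the
products of the class of a cycle of codimension `i` on `X` and of an element of `V` which is killed
by `(G ^ M - Q ^ ((c - i) M)) ^ a` for some `M > 0`. Here `F` is the Frobenius endomorphism of `X`
over the field with `Q = p ^ (Φ.e X * s)` elements. -/
def TateTimes {k : Type u} [Field k] {𝒱 : VarClass k} {ops : CycleOps 𝒱}
    {W : WeilCohomology.{u, v} ops} {p : ℕ} (Φ : FrobSystem W p) (σ : W.K →+* ℂ) (E : Subfield ℂ)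
    (r : ℕ) (X : 𝒱.Obj) : Prop :=
  ∀ s : ℕ, 0 < s → ∀ (V : Type v) [AddCommGroup V] [Module W.K V] [Module.Finite W.K V]
    (G : Module.End W.K V), EigenvaluesOfRank σ E r G →
      TensorSplits (W.map (W534.iter (Φ.Fr X) s)).toLinearMap G ((p : W.K) ^ (Φ.e X * s))
        fun i => {y | ∃ z, X.IsCyc i z ∧ y = W.cl X z}

/-- The eigenvectors in the space `P.sub` of the Frobenius endomorphism of the piece `P` over the
field with `p ^ m` elements for the eigenvalues `p ^ (m d / 2)` and `- p ^ (m d / 2)`,
`d = dim P.obj`, are combinations of classes of cycles (the Tate conjecture for these classes). -/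
def ForcedTate {k : Type u} [Field k] {𝒱 : VarClass k} {ops : CycleOps 𝒱}
    {W : WeilCohomology.{u, v} ops} {Y : 𝒱.Obj} (p : ℕ) (P : Piece W Y) (m : ℕ) : Prop :=
  Pol.RootsIn (W.map P.fr).toLinearMap P.sub ((p : W.K) ^ (P.obj.dim * m)) (algSpan W P.obj)

/-- The tuples of members with the property `C`, such that some product of copies of `Y` and of
these members does not have the property `A`. -/
def badTuples {k : Type u} [Field k] {𝒱 : VarClass k} {ops : CycleOps 𝒱}
    {W : WeilCohomology.{u, v} ops} {Y : 𝒱.Obj} {I : Type} (F : I → Family W Y) (m : ℕ)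
    (C : I → Piece W Y → Prop) (A : 𝒱.Obj → Prop) : Set (∀ i, (F i).S m) :=
  {s | (∀ i, C i ((F i).member m (s i))) ∧
    ¬ ∀ X, IsProductOf ({Y} ∪ Set.range fun i => ((F i).member m (s i)).obj) X → A X}

end Pool.Agent.W458.RK
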