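import Pool.Agent.W458.RK.Geo
import Pool.Agent.W458.RK.TDefs
import Pool.Agent.W458.RK.SDefs

/-!
# Products with all varieties of small Frobenius rank
-/

set_option autoImplicit false

open CategoryTheory AlgebraicGeometry Polynomial TensorProduct NumberField

universe u v

namespace Pool.Agent.W458.RK

open Pool.Agent.W458.MF Pool.Agent.W458.MF.G Pool.Agent.W521.Frob
  Pool.Agent.H914 Pool.Agent.W534 VarClass Obj WeilCohomology
  Pool.Agent.H281R3.HT Pool.Agent.W536.RR

section Lin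

variable {K V : Type*} [Field K] [CharZero K] [AddCommGroup V] [Module K V] {T : Module.End K V}
  {μ : K}

/-- A generalised eigenvector which is an eigenvector of a power is an eigenvector. -/
lemma eig_of_pow (hμ : μ ≠ 0) {x : V} (h : ((T - μ • (1 : Module.End K V)) ^ 2) x = 0) {M : ℕ}
    (hM : 0 < M) (h' : (T ^ M) x = μ ^ M • x) : (T - μ • (1 : Module.End K V)) x = 0 := by
  set y := (T - μ • (1 : Module.End K V)) x with hy
  have hTy : T y = μ • y := by
    rw [pow_two, Module.End.mul_apply, ← hy, LinearMap.sub_apply, LinearMap.smul_apply,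
      Module.End.one_apply, sub_eq_zero] at h
    exact h
  have hTx : T x = μ • x + y := by
    rw [hy, LinearMap.sub_apply, LinearMap.smul_apply, Module.End.one_apply]
    abel
  have h1 : ∀ n : ℕ, (T ^ (n + 1)) x = μ ^ (n + 1) • x + (((n + 1 : ℕ) : K) * μ ^ n) • y := by
    intro n
    induction n with
    | zero => simp [hTx]
    | succ n ih =>
      rw [pow_succ', Module.End.mul_apply, ih, map_add, map_smul, map_smul, hTx, hTy, smul_add,
        smul_smul, smul_smul, add_assoc, ← add_smul, ← pow_succ]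
      congr 2
      push_cast
      ring
  obtain ⟨n, rfl⟩ : ∃ n, M = n + 1 := ⟨M - 1, by omega⟩
  have h2 := h1 n
  rw [h', left_eq_add, smul_eq_zero] at h2
  refine h2.resolve_left (mul_ne_zero ?_ (pow_ne_zero _ hμ))
  exact_mod_cast Nat.succ_ne_zero n

end Lin

variable {k : Type u} [Field k] {𝒱 : VarClass k} {ops : CycleOps 𝒱}
  {W : WeilCohomology.{u, v} ops} {Y Z : 𝒱.Obj} {p : ℕ} {Φ : FrobSystem W p}
  {I : Type} {P : I → Piece W Y} {m : ℕ} {σ : W.K →+* ℂ} {R : ℤ[X]} {E : Subfield ℂ} {r : ℕ}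

/-- The low rank hypothesis. -/
lemma low_of_eig [IsAlgClosed W.K] (hPAIR : St_PAIR.{u, v}) (hSPAN : St_SPAN.{u, v, 0})
    (H : GSetup Φ σ P m R)
    (HB : BalancedOver E r (fun i => (P i).Q p m) (fun i => (P i).pol) R)
    (hY : ∀ x : W.H Y, x ∈ algSpan W Y)
    (hZ : IsProductOf ({Y} ∪ Set.range fun i => (P i).obj) Z) {s : ℕ} (hs : 0 < s)
    {μ ν : W.K} {N : ℕ} (hN : 0 < N) {c : ℤ} (hν : LowRank E r (σ ν))
    (h : (μ * ν) ^ N = ((card Φ Z s : W.K) ^ c) ^ N) {x : W.H Z}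
    (hx : x ∈ Module.End.maxGenEigenspace (frob Φ Z s) μ) :
    ∃ t, 0 < t ∧ x ∈ Submodule.span W.K {c | ∃ (l : List (XLetter p P m Z)) (A : W.H Z),
      XComm Φ t l ∧ A ∈ algSpan W Z ∧ c = (l.map XLetter.val).prod * A} := by
  have hQ : (card Φ Z s : ℚ) ≠ 0 := Nat.cast_ne_zero.2 (card_pos Φ s).ne'
  have hQC : (card Φ Z s : ℂ) ≠ 0 := Nat.cast_ne_zero.2 (card_pos Φ s).ne'
  have h1 := hν.ratMul (a := ((card Φ Z s : ℚ) ^ c)⁻¹) (inv_ne_zero (zpow_ne_zero _ hQ))
  refine low_span hPAIR hSPAN H HB hY hZ hs h1 hN ?_ hx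
  have h2 := congrArg σ h
  rw [map_pow, map_mul, map_pow, map_zpow₀, map_natCast] at h2
  push_cast
  have h3 : σ μ * (((card Φ Z s : ℂ) ^ c)⁻¹ * σ ν) = (σ μ * σ ν) * ((card Φ Z s : ℂ) ^ c)⁻¹ := by
    ring
  rw [h3, mul_pow, h2, ← mul_pow, mul_inv_cancel₀ (zpow_ne_zero _ hQC), one_pow]

/-- The Tate conjecture for the products with all varieties of small rank. -/
theorem tate_times [IsAlgClosed W.K] (hPAIR : St_PAIR.{u, v}) (hSPAN : St_SPAN.{u, v, 0})
    (H : GSetup Φ σ P m R)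
    (HB : BalancedOver E r (fun i => (P i).Q p m) (fun i => (P i).pol) R)
    (hY : ∀ x : W.H Y, x ∈ algSpan W Y)
    (hX : ∀ i x, IsExt p (P i) m x → x ∈ algSpan W (P i).obj)
    (hZ : IsProductOf ({Y} ∪ Set.range fun i => (P i).obj) Z) : TateTimes Φ σ E r Z := by
  intro s hs V _ _ _ G hG c a x
  have ec : ((p : W.K) ^ (Φ.e Z * s)) = (card Φ Z s : W.K) := by rw [W534.card, Nat.cast_pow]
  rw [ec]
  have h1 := tensor_killed (F := frob Φ Z s) (G := G) (card Φ Z s : W.K) (card_ne Φ s) c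
    (cycSub W Z) (fun i y hy => cyc_killed Φ hy) ?_ a x
  · refine h1.trans ?_
    constructor
    · intro hx
      refine Submodule.span_le.2 ?_ hx
      rintro _ ⟨i, y, v, hy, hv, rfl⟩
      induction hy using Submodule.span_induction with
      | mem y hy =>
        obtain ⟨z, hz, rfl⟩ := hy
        exact Submodule.subset_span ⟨i, _, v, ⟨z, hz, rfl⟩, hv, rfl⟩
      | zero => rw [TensorProduct.zero_tmul]; exact Submodule.zero_mem _
      | add y z _ _ hy hz => rw [TensorProduct.add_tmul]; exact Submodule.add_mem _ hy hz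
      | smul t y _ hy => rw [← TensorProduct.smul_tmul']; exact Submodule.smul_mem _ _ hy
    · intro hx
      refine Submodule.span_mono ?_ hx
      rintro _ ⟨i, y, v, hy, hv, rfl⟩
      exact ⟨i, y, v, Submodule.subset_span hy, hv, rfl⟩
  · intro μ ν N hN hν hμν x hx
    obtain ⟨t, -, h2⟩ := low_of_eig hPAIR hSPAN H HB hY hZ hs hN (hG ν hν) hμν hx
    refine algSpan_le_cyc ?_
    refine Submodule.span_le.2 ?_ h2
    rintro _ ⟨l, A, -, hA, rfl⟩
    refine algSpan_mul ?_ hA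
    clear hA
    induction l with
    | nil => exact one_mem_algSpan
    | cons a l ih =>
      rw [List.map_cons, List.prod_cons]
      exact algSpan_mul (algSpan_map _ (hX a.i _ a.isExt)) ih

/-- Semisimplicity for the products with all varieties of small rank. -/
theorem semisimple_times [IsAlgClosed W.K] (hPAIR : St_PAIR.{u, v}) (hSPAN : St_SPAN.{u, v, 0})
    (H : GSetup Φ σ P m R)
    (HB : BalancedOver E r (fun i => (P i).Q p m) (fun i => (P i).pol) R)
    (hY : ∀ x : W.H Y, x ∈ algSpan W Y)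
    (hZ : IsProductOf ({Y} ∪ Set.range fun i => (P i).obj) Z) : SemisimpleTimes Φ σ E r Z := by
  intro s hs V _ _ _ G hG c hss N hN x hx
  have ec : ((p : W.K) ^ (Φ.e Z * s)) = (card Φ Z s : W.K) := by rw [W534.card, Nat.cast_pow]
  rw [ec] at hss hx ⊢
  have hQ : (card Φ Z s : W.K) ≠ 0 := card_ne Φ s
  have key := fun a => tensor_killed (F := frob Φ Z s) (G := G) (card Φ Z s : W.K) hQ c
    (eigSub Φ Z s) (fun i y hy => hy.1) (fun μ ν N hN hν hμν x hx => by
      obtain ⟨t, ht, h2⟩ := low_of_eig hPAIR hSPAN H HB hY hZ hs hN (hG ν hν) hμν hx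
      exact ext_alg_le H ht h2) a x
  have h1 := (key 2).1 ⟨N, hN, hx⟩
  have h2 : Killed (TensorProduct.map (frob Φ Z s) G) ((card Φ Z s : W.K) ^ c) 1 x := by
    refine (key 1).2 (Submodule.span_le.2 ?_ h1)
    rintro _ ⟨i, y, v, hy, ⟨M, hM, hv⟩, rfl⟩
    by_cases h0 : y = 0
    · rw [h0, TensorProduct.zero_tmul]
      exact Submodule.zero_mem _
    · have hi : i ≤ Z.dim := by
        by_contra hlt
        push Not at hlt
        apply h0
        have h3 := hy.2
        have h4 : W.gr Z (2 * i) = ⊥ := W.gr_eq_bot Z (2 * i) (by omega)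
        rw [h4] at h3
        exact (Submodule.mem_bot _).1 h3
      refine Submodule.subset_span ⟨i, y, v, hy, ⟨M, hM, ?_⟩, rfl⟩
      rw [pow_one]
      exact hss i hi M hM v hv
  obtain ⟨M, hM, h3⟩ := killed_one_iff.1 h2
  refine eig_of_pow (pow_ne_zero _ (zpow_ne_zero _ hQ)) hx hM ?_
  change (((TensorProduct.map (frob Φ Z s) G : Module.End W.K (W.H Z ⊗[W.K] V)) ^ N) ^ M) x = _
  rw [← pow_mul, mul_comm N M, pow_mul, Module.End.pow_apply,
    iterate_eig (fun a x => map_smul ((TensorProduct.map (frob Φ Z s) G :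
      Module.End W.K (W.H Z ⊗[W.K] V)) ^ M) a x) h3 N, ← pow_mul, ← pow_mul, mul_comm M N]

/-- **The Tate conjecture for the products of almost all members with all varieties of small
rank.** -/
theorem final_tate_times (W : WeilCohomology.{u, v} ops) [IsAlgClosed W.K] (σ : W.K →+* ℂ) (p : ℕ)
    (hp : p.Prime) (Φ : FrobSystem W p) (Y : 𝒱.Obj) (hY : ∀ x : W.H Y, x ∈ algSpan W Y)
    {I : Type} [Fintype I] (F : I → Family W Y) (e : I → ℕ)
    (hF : ∀ i, Pol.HasLargeMonodromy (F i) Φ (e i)) (E : Subfield ℂ) [NumberField E] (r : ℕ)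
    (hr : ∀ i m (s : (F i).S m), r < ((F i).member m s).pol.natDegree) (ε : ℝ) (hε : 0 < ε) :
    ∃ m₀ : ℕ, ∀ m ≥ m₀, ((badTuples F m (fun i P => e i ≠ 0 → ForcedTate p P m)
      (TateTimes Φ σ E r)).ncard : ℝ) ≤ ε * ∏ i, (Nat.card ((F i).S m) : ℝ) := by
  classical
  have hF' := fun i => largeMonodromy_of_pol (hF i)
  choose d n g l₀ δ D π hF using hF'
  obtain ⟨R, m₀, h⟩ := mixed_setup3 (σ := σ) W216.MF.sieve
    (W806.MF.dens W337.MF.orb W366.MF.winj W205.MF.cnt) st_odens st_edens W976.MF.SPL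
    W216.MF.uni st_nt2 W976.MF.FLIP W902.MF.FLIP2 W12.MF.fix hp (integral_of_alg hY) F d n g e l₀ δ D π hF
    E r hr ε hε
  refine ⟨m₀, fun m hm => le_trans ?_ (h m hm)⟩
  refine Nat.cast_le.2 (Set.ncard_le_ncard ?_ (Set.toFinite _))
  rintro s ⟨hs1, hs2⟩ ⟨H, HB⟩
  refine hs2 fun Z hZ => tate_times W397.MF.pair W40.MF.span H HB hY ?_ hZ
  intro i x hx
  by_cases he : e i = 0
  · have h1 := (hF i).isMember m H.hm (s i)
    rw [he] at h1
    rw [ext_zero H i h1 hx]
    exact Submodule.zero_mem _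
  · obtain ⟨hx1, t, ht, hx2⟩ := hx
    have hsq : ((p : W.K) ^ (t * m)) ^ 2 =
        (p : W.K) ^ (((F i).member m (s i)).obj.dim * m) := by
      rw [ht, ← pow_mul]
      congr 1
      ring
    rcases hx2 with hx2 | hx2
    · exact hs1 i he x hx1 _ hsq hx2
    · exact hs1 i he x hx1 _ (by rw [neg_sq, hsq]) hx2

/-- **Semisimplicity for the products of almost all members with all varieties of small
rank.** -/
theorem final_semisimple_times (W : WeilCohomology.{u, v} ops) [IsAlgClosed W.K] (σ : W.K →+* ℂ)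
    (p : ℕ) (hp : p.Prime) (Φ : FrobSystem W p) (Y : 𝒱.Obj) (hY : ∀ x : W.H Y, x ∈ algSpan W Y)
    {I : Type} [Fintype I] (F : I → Family W Y) (e : I → ℕ)
    (hF : ∀ i, Pol.HasLargeMonodromy (F i) Φ (e i)) (E : Subfield ℂ) [NumberField E] (r : ℕ)
    (hr : ∀ i m (s : (F i).S m), r < ((F i).member m s).pol.natDegree) (ε : ℝ) (hε : 0 < ε) :
    ∃ m₀ : ℕ, ∀ m ≥ m₀, ((exceptions F m fun Z => SemisimpleTimes Φ σ E r Z).ncard : ℝ) ≤
      ε * ∏ i, (Nat.card ((F i).S m) : ℝ) := by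
  classical
  have hF' := fun i => largeMonodromy_of_pol (hF i)
  choose d n g l₀ δ D π hF using hF'
  obtain ⟨R, m₀, h⟩ := mixed_setup3 (σ := σ) W216.MF.sieve
    (W806.MF.dens W337.MF.orb W366.MF.winj W205.MF.cnt) st_odens st_edens W976.MF.SPL
    W216.MF.uni st_nt2 W976.MF.FLIP W902.MF.FLIP2 W12.MF.fix hp (integral_of_alg hY) F d n g e l₀ δ D π hF
    E r hr ε hε
  refine ⟨m₀, fun m hm => le_trans ?_ (h m hm)⟩
  refine Nat.cast_le.2 (Set.ncard_le_ncard ?_ (Set.toFinite _))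
  rintro s hs ⟨H, HB⟩
  exact hs fun Z hZ => semisimple_times W397.MF.pair W40.MF.span H HB hY hZ

end Pool.Agent.W458.RK
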