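import Pool.Agent.W458.RK.KDefs
import Pool.Agent.W458.MF.Geo5

/-!
# Tensor products of operators: vectors killed by powers
-/

set_option autoImplicit false

open Polynomial TensorProduct

namespace Pool.Agent.W458.RK

open Pool.Agent.W458.MF

section Killed

variable {K V : Type*} [Field K] [AddCommGroup V] [Module K V] {T : Module.End K V} {μ : K} {a : ℕ}

lemma aeval_killed (T : Module.End K V) (μ : K) (M a : ℕ) :
    aeval T ((X ^ M - C (μ ^ M)) ^ a) = (T ^ M - (μ ^ M) • (1 : Module.End K V)) ^ a := by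
  rw [map_pow, map_sub, map_pow, aeval_X, aeval_C, Algebra.algebraMap_eq_smul_one]

lemma killed_mul {M : ℕ} {v : V} (h : ((T ^ M - (μ ^ M) • (1 : Module.End K V)) ^ a) v = 0)
    (N : ℕ) : ((T ^ (M * N) - (μ ^ (M * N)) • (1 : Module.End K V)) ^ a) v = 0 := by
  rw [← aeval_killed] at h ⊢
  have h1 : (X ^ M - C (μ ^ M) : K[X]) ∣ X ^ (M * N) - C (μ ^ (M * N)) := by
    rw [pow_mul, pow_mul, C_pow (n := N)]
    exact sub_dvd_pow_sub_pow _ _ N
  obtain ⟨g, hg⟩ := pow_dvd_pow_of_dvd h1 a
  rw [hg, mul_comm, map_mul, Module.End.mul_apply, h, map_zero]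

lemma Killed.add {v w : V} (hv : Killed T μ a v) (hw : Killed T μ a w) : Killed T μ a (v + w) := by
  obtain ⟨M, hM, h⟩ := hv
  obtain ⟨N, hN, h'⟩ := hw
  refine ⟨M * N, Nat.mul_pos hM hN, ?_⟩
  rw [map_add, killed_mul h, mul_comm, killed_mul h', add_zero]

lemma Killed.smul {v : V} (hv : Killed T μ a v) (r : K) : Killed T μ a (r • v) := by
  obtain ⟨M, hM, h⟩ := hv
  exact ⟨M, hM, by rw [map_smul, h, smul_zero]⟩

lemma killed_zero : Killed T μ a (0 : V) := ⟨1, one_pos, map_zero _⟩

lemma gen_of_killed {M : ℕ} {v : V}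
    (h : ((T ^ M - (μ ^ M) • (1 : Module.End K V)) ^ a) v = 0) :
    v ∈ (T ^ M).maxGenEigenspace (μ ^ M) := by
  rw [Module.End.mem_maxGenEigenspace]
  exact ⟨a, h⟩

/-- The vectors which are killed. -/
def killedSub (T : Module.End K V) (μ : K) (a : ℕ) : Submodule K V where
  carrier := {v | Killed T μ a v}
  add_mem' := Killed.add
  zero_mem' := killed_zero
  smul_mem' := fun r _ hv => Killed.smul hv r

lemma killed_one_iff {v : V} : Killed T μ 1 v ↔ ∃ M : ℕ, 0 < M ∧ (T ^ M) v = μ ^ M • v := by
  unfold Killed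
  refine exists_congr fun M => and_congr_right fun _ => ?_
  rw [pow_one, LinearMap.sub_apply, LinearMap.smul_apply, Module.End.one_apply, sub_eq_zero]

/-- semisimple eigenvalues of powers -/
lemma gen_pow_of_gen {v : V} (h : v ∈ T.maxGenEigenspace μ) (M : ℕ) :
    v ∈ (T ^ M).maxGenEigenspace (μ ^ M) := by
  rw [Module.End.mem_maxGenEigenspace] at h ⊢
  obtain ⟨a, ha⟩ := h
  refine ⟨a, ?_⟩
  have h1 : ((T ^ 1 - (μ ^ 1) • (1 : Module.End K V)) ^ a) v = 0 := by
    rw [pow_one, pow_one]
    exact ha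
  have h2 := killed_mul h1 M
  rwa [one_mul] at h2

end Killed

section Tensor

variable {K H V : Type*} [Field K] [AddCommGroup H] [Module K H] [AddCommGroup V] [Module K V]
  {F : Module.End K H} {G : Module.End K V}

lemma map_pow_tmul (F : Module.End K H) (G : Module.End K V) (M : ℕ) (y : H) (v : V) :
    ((TensorProduct.map F G : Module.End K (H ⊗[K] V)) ^ M) (y ⊗ₜ v) =
      (F ^ M) y ⊗ₜ[K] (G ^ M) v := by
  induction M with
  | zero => rfl
  | succ M ih =>
    rw [pow_succ', Module.End.mul_apply, ih, TensorProduct.map_tmul, pow_succ', pow_succ',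
      Module.End.mul_apply, Module.End.mul_apply]

lemma killed_tmul {y : H} {M : ℕ} {α β : K} (hy : (F ^ M) y = α ^ M • y) (a : ℕ) (v : V) :
    (((TensorProduct.map F G : Module.End K (H ⊗[K] V)) ^ M -
      ((α * β) ^ M) • (1 : Module.End K (H ⊗[K] V))) ^ a) (y ⊗ₜ v) =
      (α ^ M) ^ a • (y ⊗ₜ[K] (((G ^ M - (β ^ M) • (1 : Module.End K V)) ^ a) v)) := by
  induction a generalizing v with
  | zero => simp
  | succ a ih =>
    rw [pow_succ, Module.End.mul_apply]
    have h1 : ((TensorProduct.map F G : Module.End K (H ⊗[K] V)) ^ M -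
        ((α * β) ^ M) • (1 : Module.End K (H ⊗[K] V))) (y ⊗ₜ v) =
        α ^ M • (y ⊗ₜ[K] ((G ^ M - (β ^ M) • (1 : Module.End K V)) v)) := by
      rw [LinearMap.sub_apply, map_pow_tmul, hy, LinearMap.smul_apply, Module.End.one_apply,
        LinearMap.sub_apply, LinearMap.smul_apply, Module.End.one_apply, TensorProduct.tmul_sub,
        smul_sub, ← TensorProduct.smul_tmul', TensorProduct.tmul_smul, smul_smul, mul_pow]
    rw [h1, map_smul, ih, smul_smul, pow_succ (α ^ M), mul_comm ((α ^ M) ^ a), pow_succ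
      (G ^ M - (β ^ M) • (1 : Module.End K V)), Module.End.mul_apply]

/-- **The vectors in the tensor product which are killed by powers.** -/
theorem tensor_killed [IsAlgClosed K] [Module.Finite K H] [Module.Finite K V]
    (Q : K) (hQ : Q ≠ 0) (c : ℤ) (A : ℕ → Submodule K H)
    (hA : ∀ i, ∀ y ∈ A i, Killed F (Q ^ i) 1 y)
    (hlow : ∀ (μ ν : K) (N : ℕ), 0 < N → G.HasEigenvalue ν → (μ * ν) ^ N = (Q ^ c) ^ N →
      F.maxGenEigenspace μ ≤ ⨆ i, A i) (a : ℕ) (x : H ⊗[K] V) :
    Killed (TensorProduct.map F G) (Q ^ c) a x ↔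
      x ∈ Submodule.span K {w | ∃ (i : ℕ) (y : H) (v : V), y ∈ A i ∧
        Killed G (Q ^ (c - i)) a v ∧ w = y ⊗ₜ v} := by
  classical
  have hQi : ∀ i : ℕ, Q ^ i * Q ^ (c - i) = Q ^ c := by
    intro i
    rw [← zpow_natCast, ← zpow_add₀ hQ]
    congr 1
    ring
  constructor
  · rintro ⟨M₀, hM₀, hx⟩
    -- generalised eigenvectors
    have h1 : x ∈ Submodule.span K {w | ∃ (y : H) (v : V), (∃ ν, y ∈ F.maxGenEigenspace ν) ∧
        (∃ ν, v ∈ G.maxGenEigenspace ν) ∧ w = y ⊗ₜ[K] v} := by
      clear hx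
      induction x using TensorProduct.induction_on with
      | zero => exact Submodule.zero_mem _
      | add x y hx hy => exact Submodule.add_mem _ hx hy
      | tmul y v =>
        have hy := span_gen_top F y
        induction hy using Submodule.span_induction with
        | mem y hy =>
          have hv := span_gen_top G v
          induction hv using Submodule.span_induction with
          | mem v hv => exact Submodule.subset_span ⟨y, v, hy, hv, rfl⟩
          | zero => rw [TensorProduct.tmul_zero]; exact Submodule.zero_mem _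
          | add v w _ _ hv hw => rw [TensorProduct.tmul_add]; exact Submodule.add_mem _ hv hw
          | smul r v _ hv => rw [TensorProduct.tmul_smul]; exact Submodule.smul_mem _ _ hv
        | zero => rw [TensorProduct.zero_tmul]; exact Submodule.zero_mem _
        | add v w _ _ hv hw => rw [TensorProduct.add_tmul]; exact Submodule.add_mem _ hv hw
        | smul r v _ hv => rw [← TensorProduct.smul_tmul']; exact Submodule.smul_mem _ _ hv
    have hgen : ∀ (y : H) (v : V) (μ ν : K), y ∈ F.maxGenEigenspace μ → v ∈ G.maxGenEigenspace ν →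
        y ⊗ₜ[K] v ∈ Module.End.maxGenEigenspace
          ((TensorProduct.map F G : Module.End K (H ⊗[K] V)) ^ M₀) ((μ * ν) ^ M₀) := by
      intro y v μ ν hy hv
      refine gen_pow_of_gen ?_ M₀
      exact gen_mul (TensorProduct.mk K H V) (T'' := TensorProduct.map F G)
        (fun x y => TensorProduct.map_tmul F G x y) hy hv
    have h2 := mem_span_gen (T := (TensorProduct.map F G : Module.End K (H ⊗[K] V)) ^ M₀)
      (fun w hw => by
        obtain ⟨y, v, ⟨μ, hμ⟩, ⟨ν, hν⟩, rfl⟩ := hw
        exact ⟨_, hgen y v μ ν hμ hν⟩) h1 (gen_of_killed hx)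
    -- the algebraic part
    obtain ⟨b, hbS, hbs, hbl⟩ := exists_linearIndependent K (⋃ i, (A i : Set H))
    have hfin : b.Finite := hbl.setFinite
    have : Fintype b := hfin.fintype
    have hspan : ∀ y ∈ ⨆ i, A i, y ∈ Submodule.span K b := by
      intro y hy
      rw [hbs, Submodule.span_iUnion]
      simpa using hy
    have h3 : ∃ w : b → V, x = ∑ y : b, (y : H) ⊗ₜ[K] w y := by
      clear hx h1
      induction h2 using Submodule.span_induction with
      | mem z hz =>
        obtain ⟨⟨y, v, ⟨μ, hμ⟩, ⟨ν, hν⟩, rfl⟩, hz⟩ := hz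
        by_cases h0 : y ⊗ₜ[K] v = 0
        · exact ⟨0, by simp [h0]⟩
        · have h4 := eq_of_mem_gen (hgen y v μ ν hμ hν) hz h0
          have hv0 : v ≠ 0 := by
            rintro rfl
            exact h0 (TensorProduct.tmul_zero _ _)
          have h5 := hspan y (hlow μ ν M₀ hM₀ (hasEigenvalue_of_gen hν hv0) h4 hμ)
          clear h0 hz hgen hμ h4
          induction h5 using Submodule.span_induction with
          | mem y hy =>
            refine ⟨Pi.single ⟨y, hy⟩ v, ?_⟩
            rw [Finset.sum_eq_single (⟨y, hy⟩ : b)]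
            · rw [Pi.single_eq_same]
            · intro z _ hz
              rw [Pi.single_eq_of_ne hz, TensorProduct.tmul_zero]
            · intro h
              exact absurd (Finset.mem_univ _) h
          | zero => exact ⟨0, by simp⟩
          | add y z _ _ hy hz =>
            obtain ⟨w, hw⟩ := hy
            obtain ⟨w', hw'⟩ := hz
            exact ⟨w + w', by simp [TensorProduct.add_tmul, TensorProduct.tmul_add,
              Finset.sum_add_distrib, hw, hw']⟩
          | smul r y _ hy =>
            obtain ⟨w, hw⟩ := hy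
            refine ⟨r • w, ?_⟩
            rw [← TensorProduct.smul_tmul', hw, Finset.smul_sum]
            exact Finset.sum_congr rfl fun y _ => by rw [Pi.smul_apply, TensorProduct.tmul_smul]
      | zero => exact ⟨0, by simp⟩
      | add y z _ _ hy hz =>
        obtain ⟨w, hw⟩ := hy
        obtain ⟨w', hw'⟩ := hz
        exact ⟨w + w', by simp [TensorProduct.tmul_add, Finset.sum_add_distrib, hw, hw']⟩
      | smul r y _ hy =>
        obtain ⟨w, hw⟩ := hy
        refine ⟨r • w, ?_⟩
        rw [hw, Finset.smul_sum]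
        exact Finset.sum_congr rfl fun y _ => by rw [Pi.smul_apply, TensorProduct.tmul_smul]
    obtain ⟨w, hw⟩ := h3
    have h4 : ∀ y : b, ∃ (i : ℕ) (M : ℕ), (y : H) ∈ A i ∧ 0 < M ∧
        (F ^ M) (y : H) = (Q ^ i) ^ M • (y : H) := by
      intro y
      obtain ⟨i, hi⟩ := Set.mem_iUnion.1 (hbS y.2)
      obtain ⟨M, hM, h5⟩ := killed_one_iff.1 (hA i y hi)
      exact ⟨i, M, hi, hM, h5⟩
    choose i M hi hM hFM using h4
    set N : ℕ := M₀ * ∏ y, M y with hN
    have hNpos : 0 < N := Nat.mul_pos hM₀ (Finset.prod_pos fun y _ => hM y)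
    have hFN : ∀ y : b, (F ^ N) (y : H) = (Q ^ i y) ^ N • (y : H) := by
      intro y
      obtain ⟨m, hm⟩ : M y ∣ N := Dvd.dvd.mul_left (Finset.dvd_prod_of_mem M (Finset.mem_univ y)) _
      rw [hm, pow_mul, pow_mul, Module.End.pow_apply]
      exact Pool.Agent.W534.iterate_eig (fun a x => map_smul (F ^ M y) a x) (hFM y) m
    have hx' := killed_mul hx (∏ y, M y)
    rw [← hN, hw, map_sum] at hx'
    have h5 : ∀ y : b, (((TensorProduct.map F G : Module.End K (H ⊗[K] V)) ^ N -
        ((Q ^ c) ^ N) • (1 : Module.End K (H ⊗[K] V))) ^ a) ((y : H) ⊗ₜ w y) =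
        ((Q ^ i y) ^ N) ^ a • ((y : H) ⊗ₜ[K]
          (((G ^ N - ((Q ^ (c - i y)) ^ N) • (1 : Module.End K V)) ^ a) (w y))) := by
      intro y
      rw [← hQi (i y)]
      exact killed_tmul (hFN y) a (w y)
    rw [Finset.sum_congr rfl fun y _ => h5 y] at hx'
    have h6 : ∀ y : b, Killed G (Q ^ (c - i y)) a (w y) := by
      intro y
      refine ⟨N, hNpos, ?_⟩
      obtain ⟨f, hf1, hf2⟩ : ∃ f : H →ₗ[K] K, f (y : H) = 1 ∧ ∀ z : b, z ≠ y → f (z : H) = 0 := by
        have hbl' : LinearIndepOn K id b := hbl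
        let B := Module.Basis.extend hbl'
        have hsub := hbl'.subset_extend (Set.subset_univ b)
        have hB : ∀ z : b, B ⟨z, hsub z.2⟩ = (z : H) := fun z =>
          Module.Basis.extend_apply_self hbl' _
        have hcoord : ∀ z : b, B.coord ⟨y, hsub y.2⟩ (z : H) = if z = y then 1 else 0 := by
          intro z
          have e1 : B.coord ⟨y, hsub y.2⟩ (z : H) = B.coord ⟨y, hsub y.2⟩ (B ⟨z, hsub z.2⟩) :=
            congrArg _ (hB z).symm
          rw [e1, Module.Basis.coord_apply, Module.Basis.repr_self, Finsupp.single_apply]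
          by_cases h : z = y
          · subst h
            rw [if_pos rfl, if_pos rfl]
          · rw [if_neg h, if_neg]
            intro h'
            exact h (Subtype.ext (Subtype.mk.inj h'))
        refine ⟨B.coord ⟨y, hsub y.2⟩, ?_, ?_⟩
        · rw [hcoord, if_pos rfl]
        · intro z hz
          rw [hcoord, if_neg hz]
      have h7 := congrArg (fun x => TensorProduct.lid K V (LinearMap.rTensor V f x)) hx'
      simp only [map_sum, map_smul, LinearMap.rTensor_tmul, TensorProduct.lid_tmul,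
        map_zero] at h7
      rw [Finset.sum_eq_single y] at h7
      · rw [hf1, one_smul, smul_eq_zero] at h7
        exact h7.resolve_left (pow_ne_zero _ (pow_ne_zero _ (pow_ne_zero _ hQ)))
      · intro z _ hz
        rw [hf2 z hz, zero_smul, smul_zero]
      · intro h
        exact absurd (Finset.mem_univ _) h
    rw [hw]
    refine Submodule.sum_mem _ fun y _ => Submodule.subset_span ?_
    exact ⟨i y, y, w y, hi y, h6 y, rfl⟩
  · intro hx
    have h1 : Submodule.span K {w | ∃ (i : ℕ) (y : H) (v : V), y ∈ A i ∧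
        Killed G (Q ^ (c - i)) a v ∧ w = y ⊗ₜ v} ≤ killedSub (TensorProduct.map F G) (Q ^ c) a := by
      rw [Submodule.span_le]
      rintro _ ⟨i, y, v, hy, ⟨N, hN, hv⟩, rfl⟩
      obtain ⟨M, hM, hy⟩ := killed_one_iff.1 (hA i y hy)
      refine ⟨M * N, Nat.mul_pos hM hN, ?_⟩
      have hy' : (F ^ (M * N)) y = (Q ^ i) ^ (M * N) • y := by
        rw [pow_mul, pow_mul, Module.End.pow_apply]
        exact Pool.Agent.W534.iterate_eig (fun a x => map_smul (F ^ M) a x) hy N
      rw [← hQi i, killed_tmul hy', mul_comm M N, killed_mul hv, TensorProduct.tmul_zero,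
        smul_zero]
    exact h1 hx

end Tensor

end Pool.Agent.W458.RK
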