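import Pool.Agent.W458.RK.Setup
import Pool.Agent.W458.RK.Lin
import Pool.Agent.W458.MF.Gen10

/-!
# The cohomology classes of the products whose eigenvalues have small rank
-/

set_option autoImplicit false

open CategoryTheory AlgebraicGeometry Polynomial TensorProduct

universe u v

namespace Pool.Agent.W458.RK

open Pool.Agent.W458.MF Pool.Agent.W458.MF.G Pool.Agent.W521.Frob
  Pool.Agent.H914 Pool.Agent.W534 VarClass Obj WeilCohomology
  Pool.Agent.H281R3.HT Pool.Agent.W536.RR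

variable {k : Type u} [Field k] {𝒱 : VarClass k} {ops : CycleOps 𝒱}
  {W : WeilCohomology.{u, v} ops} {Y Z : 𝒱.Obj} {p : ℕ} {Φ : FrobSystem W p}
  {I : Type} {P : I → Piece W Y} {m : ℕ} {σ : W.K →+* ℂ} {R : ℤ[X]} {E : Subfield ℂ} {r : ℕ}

/-- Good monomials whose eigenvalues have small rank are products of further eigenvectors and of
algebraic classes. -/
lemma good_low [IsAlgClosed W.K] (hPAIR : St_PAIR.{u, v}) (H : GSetup Φ σ P m R)
    (HB : BalancedOver E r (fun i => (P i).Q p m) (fun i => (P i).pol) R)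
    (hY : ∀ x : W.H Y, x ∈ algSpan W Y) {t : ℕ} (G : GMono Φ σ P m R Z t) {μ : W.K}
    (hc : G.val ∈ Module.End.maxGenEigenspace (frob Φ Z t) μ) (hc0 : G.val ≠ 0) {ρ : ℂ}
    (hρ : LowRank E r ρ) {a : ℕ} (ha : σ μ * ρ ^ a = 1) : G.eval ∈ algSpan W Z := by
  classical
  set hx := (G.x.map XLetter.half).sum with hhx
  obtain ⟨t', ht', hfr, -⟩ := frob_letters H G.l G.hl
  have h1 := good_gen G hfr
  rw [← hhx] at h1
  have h2 : ((card Φ Z t : W.K) ^ hx * (G.l.map ELetter.lam).prod ^ t') * G.ν = μ :=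
    eq_of_mem_gen h1 hc hc0
  have hy0 : G.y ≠ 0 := by
    intro h
    apply hc0
    rw [GMono.val, GMono.eval, h, map_zero, mul_zero, mul_zero]
  have hν : σ G.ν ∈ Submonoid.closure {z : ℂ | aeval z R = 0} :=
    G.good _ (hasEigenvalue_of_gen G.gen hy0)
  have hcard : ((card Φ Z t ^ hx : ℕ) : ℂ) ∈ Submonoid.closure {z : ℂ | aeval z R = 0} := by
    rw [W534.card, ← pow_mul]
    exact pow_mem_closure H _
  have h3 : (((G.l.map (ELetter.label σ)).map fun x => x.2 ^ t').prod) *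
      ((σ G.ν * ((card Φ Z t ^ hx : ℕ) : ℂ)) * ρ ^ a) = 1 := by
    rw [← ha, ← h2, map_mul, map_mul, map_pow, map_pow, map_list_prod, map_natCast, Nat.cast_pow,
      List.map_map, List.map_map]
    have e2 : ∀ l : List (ELetter p P m Z), (l.map ((fun x : I × ℂ => x.2 ^ t') ∘
        ELetter.label σ)).prod = (l.map (⇑σ ∘ ELetter.lam)).prod ^ t' := by
      intro l
      induction l with
      | nil => simp
      | cons a l ih =>
        rw [List.map_cons, List.prod_cons, ih, List.map_cons, List.prod_cons, mul_pow]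
        rfl
    rw [e2]
    ring
  have h4 : BalList (fun i => (P i).Q p m) (G.l.map (ELetter.label σ)) := by
    intro i z
    have := HB (G.l.map (ELetter.label σ)) (by
      intro x hx
      obtain ⟨b, _, rfl⟩ := List.mem_map.1 hx
      exact aeval_sigma σ b.isEig.root) t' ht' (σ G.ν * ((card Φ Z t ^ hx : ℕ) : ℂ))
      (Submonoid.mul_mem _ hν hcard) ρ hρ a h3 i z
    convert this
  obtain ⟨h5, -⟩ := Pool.Agent.W458.MF.G.balanced_alg hPAIR H G.l.length G.l le_rfl h4
  exact algSpan_mul h5 (algSpan_map _ (alg_products hY G.T G.hT G.y))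

/-- The generalised eigenvectors whose eigenvalues have small rank. -/
theorem low_span [IsAlgClosed W.K] (hPAIR : St_PAIR.{u, v}) (hSPAN : St_SPAN.{u, v, 0})
    (H : GSetup Φ σ P m R)
    (HB : BalancedOver E r (fun i => (P i).Q p m) (fun i => (P i).pol) R)
    (hY : ∀ x : W.H Y, x ∈ algSpan W Y)
    (hZ : IsProductOf ({Y} ∪ Set.range fun i => (P i).obj) Z) {s : ℕ} (hs : 0 < s) {μ : W.K}
    {ρ : ℂ} (hρ : LowRank E r ρ) {N : ℕ} (hN : 0 < N) (h : (σ μ * ρ) ^ N = 1) {c : W.H Z}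
    (hc : c ∈ Module.End.maxGenEigenspace (frob Φ Z s) μ) :
    ∃ t, 0 < t ∧ c ∈ Submodule.span W.K {c | ∃ (l : List (XLetter p P m Z)) (A : W.H Z),
      XComm Φ t l ∧ A ∈ algSpan W Z ∧ c = (l.map XLetter.val).prod * A} := by
  obtain ⟨t₀, ht₀, h0⟩ := span_good (σ := σ) hSPAN H hZ c
  have h1 := h0 (s * N) (Nat.mul_pos hs hN)
  set t := t₀ * (s * N) with ht
  refine ⟨t, Nat.mul_pos ht₀ (Nat.mul_pos hs hN), ?_⟩
  have et : t = s * (N * t₀) := by rw [ht]; ring
  have h2 : c ∈ Module.End.maxGenEigenspace (frob Φ Z t) (μ ^ (N * t₀)) := by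
    rw [et, frob_mul_eq]
    exact gen_pow_of_gen hc _
  have h3 := mem_span_gen (T := frob Φ Z t) (fun v hv => by
    obtain ⟨G, rfl⟩ := hv
    exact exists_good_gen H G) h1 h2
  refine Submodule.span_le.2 ?_ h3
  rintro v ⟨⟨G, rfl⟩, hv⟩
  by_cases h0 : G.val = 0
  · rw [h0]
    exact Submodule.zero_mem _
  · refine Submodule.subset_span ⟨G.x, G.eval, G.hx, good_low hPAIR H HB hY G hv h0 hρ
      (a := N * t₀) ?_, rfl⟩
    rw [map_pow, ← mul_pow, pow_mul, h, one_pow]

/-- The classes of the cycles of codimension `i`. -/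
def cycSub (W : WeilCohomology.{u, v} ops) (Z : 𝒱.Obj) (i : ℕ) : Submodule W.K (W.H Z) :=
  Submodule.span W.K {x | ∃ z, Z.IsCyc i z ∧ x = W.cl Z z}

lemma algSpan_le_cyc : algSpan W Z ≤ ⨆ i, cycSub W Z i := by
  intro x hx
  refine algSpan_induction (p := fun x => x ∈ ⨆ i, cycSub W Z i) ?_ ?_ ?_ ?_ hx
  · exact Submodule.zero_mem _
  · intro a b ha hb
    exact Submodule.add_mem _ ha hb
  · intro t a ha
    exact Submodule.smul_mem _ _ ha
  · intro j z hz
    exact Submodule.mem_iSup_of_mem j (Submodule.subset_span ⟨z, hz, rfl⟩)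

lemma cyc_killed (Φ : FrobSystem W p) {s i : ℕ} {y : W.H Z} (hy : y ∈ cycSub W Z i) :
    Killed (frob Φ Z s) ((card Φ Z s : W.K) ^ i) 1 y := by
  have h1 : cycSub W Z i ≤ killedSub (frob Φ Z s) ((card Φ Z s : W.K) ^ i) 1 := by
    rw [cycSub, Submodule.span_le]
    rintro _ ⟨z, hz, rfl⟩
    obtain ⟨a, ha, h⟩ := Φ.cyc hz
    have h2 := frob_mul Φ h s
    refine killed_one_iff.2 ⟨a, ha, ?_⟩
    rw [← frob_mul_eq, frob_apply, mul_comm s a, h2]
    congr 1
    rw [W534.card, Nat.cast_pow, ← pow_mul, ← pow_mul]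
    congr 1
    ring
  exact h1 hy

/-- The classes of degree `2 i` on which a power of the Frobenius endomorphism is the
multiplication by the power of the number of elements of the field. -/
noncomputable def eigSub (Φ : FrobSystem W p) (Z : 𝒱.Obj) (s i : ℕ) : Submodule W.K (W.H Z) :=
  killedSub (frob Φ Z s) ((card Φ Z s : W.K) ^ i) 1 ⊓ W.gr Z (2 * i)

lemma eig_pow {t i : ℕ} {x : W.H Z} (h : frob Φ Z t x = (card Φ Z t : W.K) ^ i • x) (b : ℕ) :
    frob Φ Z (t * b) x = (card Φ Z (t * b) : W.K) ^ i • x := by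
  rw [frob_mul_eq, Module.End.pow_apply,
    iterate_eig (fun a x => map_smul (frob Φ Z t) a x) h b, card_mul_eq, Nat.cast_pow, ← pow_mul,
    ← pow_mul, mul_comm i b]

lemma ext_alg_le (H : GSetup Φ σ P m R) {s t : ℕ} (ht : 0 < t) {c : W.H Z}
    (hc : c ∈ Submodule.span W.K {c | ∃ (l : List (XLetter p P m Z)) (A : W.H Z),
      XComm Φ t l ∧ A ∈ algSpan W Z ∧ c = (l.map XLetter.val).prod * A}) :
    c ∈ ⨆ i, eigSub Φ Z s i := by
  refine Submodule.span_le.2 ?_ hc
  rintro _ ⟨l, A, hl, hA, rfl⟩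
  refine algSpan_induction (p := fun A => (l.map XLetter.val).prod * A ∈
    ⨆ i, eigSub Φ Z s i) ?_ ?_ ?_ ?_ hA
  · rw [mul_zero]; exact Submodule.zero_mem _
  · intro a b ha hb
    rw [mul_add]; exact Submodule.add_mem _ ha hb
  · intro t a ha
    rw [mul_smul_comm]; exact Submodule.smul_mem _ _ ha
  · intro j z hz
    refine Submodule.mem_iSup_of_mem ((l.map XLetter.half).sum + j) ⟨?_, ?_⟩
    · obtain ⟨a, ha, h⟩ := Φ.cyc hz
      refine killed_one_iff.2 ⟨t * a, Nat.mul_pos ht ha, ?_⟩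
      have h1 := eig_pow (frob_xletters l hl) (s * a)
      have h2 : frob Φ Z a (W.cl Z z) = (card Φ Z a : W.K) ^ j • W.cl Z z := by
        rw [card_pow]
        exact h
      have h3 := eig_pow h2 (s * t)
      have e1 : t * (s * a) = s * (t * a) := by ring
      have e2 : a * (s * t) = s * (t * a) := by ring
      rw [e1] at h1
      rw [e2] at h3
      rw [← frob_mul_eq, frob_mul_apply, h1, h3, smul_mul_smul_comm, ← pow_add]
      congr 1
      rw [card_mul_eq, Nat.cast_pow, ← pow_mul, ← pow_mul, mul_comm (t * a)]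
    · rw [mul_add]
      exact W.mul_mem (xprod_mem H l) (W.cl_mem hz)

end Pool.Agent.W458.RK
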