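import Mathlib

/-!
# Operators whose eigenvalues have small rank over a number field: definitions
-/

set_option autoImplicit false

open Polynomial TensorProduct

namespace Pool.Agent.W458.RK

/-- A power of `ρ` is a nonzero element of `E` times a product of powers of the numbers `u j`. -/
def PowerIn (E : Subfield ℂ) {r : ℕ} (u : Fin r → ℂ) (ρ : ℂ) : Prop :=
  ∃ (N : ℕ) (y : ℂ) (m : Fin r → ℤ), 0 < N ∧ y ∈ E ∧ y ≠ 0 ∧ ρ ^ N = y * ∏ j, u j ^ m j

/-- Up to powers the numbers in `S` lie in a group generated by the nonzero elements of `E` and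
`r` numbers. -/
def RankAtMost (E : Subfield ℂ) (r : ℕ) (S : Set ℂ) : Prop :=
  ∃ u : Fin r → ℂ, (∀ j, u j ≠ 0) ∧ ∀ ρ ∈ S, PowerIn E u ρ

/-- The number `ρ` is a root of a nonzero rational polynomial whose roots have rank at most `r`
over `E`. -/
def LowRank (E : Subfield ℂ) (r : ℕ) (ρ : ℂ) : Prop :=
  ∃ χ : ℚ[X], χ ≠ 0 ∧ aeval ρ χ = 0 ∧ RankAtMost E r {z : ℂ | aeval z χ = 0}

/-- The eigenvalues of the operator `G` have rank at most `r` over `E`. -/
def EigenvaluesOfRank {K V : Type*} [Field K] [AddCommGroup V] [Module K V] (σ : K →+* ℂ)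
    (E : Subfield ℂ) (r : ℕ) (G : Module.End K V) : Prop :=
  ∀ ν : K, G.HasEigenvalue ν → LowRank E r (σ ν)

/-- The vector `v` is killed by `(T ^ M - μ ^ M) ^ a` for some `M > 0`. -/
def Killed {K V : Type*} [Field K] [AddCommGroup V] [Module K V] (T : Module.End K V) (μ : K)
    (a : ℕ) (v : V) : Prop :=
  ∃ M : ℕ, 0 < M ∧ ((T ^ M - (μ ^ M) • (1 : Module.End K V)) ^ a) v = 0

/-- Let `F` and `G` be operators on `H` and `V`. For all integers `c` and all `a ≥ 0` an element of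
`H ⊗ V` is killed by `((F ⊗ G) ^ M - Q ^ (c M)) ^ a` for some `M > 0` if and only if it is a
combination of products `y ⊗ v` such that `y` is in `C i` and `v` is killed by
`(G ^ M - Q ^ ((c - i) M)) ^ a` for some `M > 0`. -/
def TensorSplits {K H V : Type*} [Field K] [AddCommGroup H] [Module K H] [AddCommGroup V]
    [Module K V] (F : Module.End K H) (G : Module.End K V) (Q : K) (C : ℕ → Set H) : Prop :=
  ∀ (c : ℤ) (a : ℕ) (x : H ⊗[K] V), Killed (TensorProduct.map F G) (Q ^ c) a x ↔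
    x ∈ Submodule.span K {w | ∃ (i : ℕ) (y : H) (v : V), y ∈ C i ∧ Killed G (Q ^ (c - i)) a v ∧
      w = y ⊗ₜ v}

/-- The eigenvalue `Q ^ (c N)` of `T ^ N` is semisimple for all `N > 0`: the vectors killed by
`(T ^ N - Q ^ (c N)) ^ 2` are killed by `T ^ N - Q ^ (c N)`. -/
def SemisimpleAt {K V : Type*} [Field K] [AddCommGroup V] [Module K V] (T : Module.End K V)
    (Q : K) (c : ℤ) : Prop :=
  ∀ N : ℕ, 0 < N → ∀ v, ((T ^ N - ((Q ^ c) ^ N) • (1 : Module.End K V)) ^ 2) v = 0 →
    (T ^ N - ((Q ^ c) ^ N) • (1 : Module.End K V)) v = 0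

end Pool.Agent.W458.RK
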