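import Pool.Agent.W928.MF.NT2
import Pool.Agent.W484.AA.Rank
import Pool.Agent.W458.RK.KDefs

/-!
# Numbers of small rank over a number field
-/

set_option autoImplicit false

open Polynomial NumberField

namespace Pool.Agent.W458.RK

open Pool.Agent.W458.MF Pool.Agent.W521.Frob Pool.Agent.W521.Criterion Pool.Agent.W338.MF
  Pool.Agent.W928.MF

section PowerIn

variable {E : Subfield ℂ} {r : ℕ} {u : Fin r → ℂ}

lemma PowerIn.mul (hu : ∀ j, u j ≠ 0) {a b : ℂ} (ha : PowerIn E u a) (hb : PowerIn E u b) :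
    PowerIn E u (a * b) := by
  obtain ⟨N, y, m, hN, hy, hy0, h⟩ := ha
  obtain ⟨N', y', m', hN', hy', hy0', h'⟩ := hb
  refine ⟨N * N', y ^ N' * y' ^ N, fun j => m j * N' + m' j * N, Nat.mul_pos hN hN',
    E.mul_mem (E.pow_mem hy _) (E.pow_mem hy' _), mul_ne_zero (pow_ne_zero _ hy0)
      (pow_ne_zero _ hy0'), ?_⟩
  have h1 : ∏ j, u j ^ (m j * (N' : ℤ) + m' j * (N : ℤ)) =
      (∏ j, u j ^ m j) ^ N' * (∏ j, u j ^ m' j) ^ N := by
    rw [← Finset.prod_pow, ← Finset.prod_pow, ← Finset.prod_mul_distrib]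
    refine Finset.prod_congr rfl fun j _ => ?_
    rw [zpow_add₀ (hu j), zpow_mul, zpow_mul, zpow_natCast, zpow_natCast]
  rw [h1]
  calc (a * b) ^ (N * N') = (a ^ N) ^ N' * (b ^ N') ^ N := by ring
    _ = _ := by
      rw [h, h']
      ring

lemma PowerIn.inv {a : ℂ} (ha : PowerIn E u a) : PowerIn E u a⁻¹ := by
  obtain ⟨N, y, m, hN, hy, hy0, h⟩ := ha
  refine ⟨N, y⁻¹, fun j => - m j, hN, E.inv_mem hy, inv_ne_zero hy0, ?_⟩
  rw [inv_pow, h, mul_inv, ← Finset.prod_inv_distrib]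
  congr 1
  refine Finset.prod_congr rfl fun j _ => ?_
  rw [zpow_neg]

lemma PowerIn.of_mem {y : ℂ} (hy : y ∈ E) (hy0 : y ≠ 0) : PowerIn E u y :=
  ⟨1, y, 0, one_pos, hy, hy0, by simp⟩

lemma PowerIn.of_pow {a : ℂ} {k : ℕ} (hk : 0 < k) (ha : PowerIn E u (a ^ k)) : PowerIn E u a := by
  obtain ⟨N, y, m, hN, hy, hy0, h⟩ := ha
  exact ⟨k * N, y, m, Nat.mul_pos hk hN, hy, hy0, by rw [pow_mul, h]⟩

lemma PowerIn.pow {a : ℂ} (ha : PowerIn E u a) (k : ℕ) : PowerIn E u (a ^ k) := by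
  obtain ⟨N, y, m, hN, hy, hy0, h⟩ := ha
  refine ⟨N, y ^ k, fun j => m j * k, hN, E.pow_mem hy _, pow_ne_zero _ hy0, ?_⟩
  rw [← pow_mul, mul_comm k, pow_mul, h, mul_pow, ← Finset.prod_pow]
  congr 1
  refine Finset.prod_congr rfl fun j _ => ?_
  rw [zpow_mul, zpow_natCast]

end PowerIn

lemma comp_scale {K : Type*} [Field K] [CharZero K] (χ : ℚ[X]) (a : ℚ) (z : K) :
    aeval z (χ.comp (C a * X)) = aeval ((a : K) * z) χ := by
  rw [aeval_comp, map_mul, aeval_C, aeval_X, eq_ratCast]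

/-- Rational multiples. -/
lemma LowRank.ratMul {E : Subfield ℂ} {r : ℕ} {ρ : ℂ} (h : LowRank E r ρ) {a : ℚ} (ha : a ≠ 0) :
    LowRank E r ((a : ℂ) * ρ) := by
  obtain ⟨χ, h0, hρ, u, hu, hS⟩ := h
  have haC : (a : ℂ) ≠ 0 := by exact_mod_cast ha
  refine ⟨χ.comp (C a⁻¹ * X), ?_, ?_, u, hu, ?_⟩
  · intro h1
    have h2 := comp_eq_zero_iff.1 h1
    rcases h2 with h2 | ⟨-, h2⟩
    · exact h0 h2
    · have h3 := congrArg (fun f => f.coeff 1) h2
      simp only [coeff_C_mul, coeff_X_one, mul_one, coeff_C_succ] at h3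
      exact inv_ne_zero ha h3
  · rw [comp_scale, Rat.cast_inv, inv_mul_cancel_left₀ haC]
    exact hρ
  · intro z hz
    rw [Set.mem_ofPred_eq, comp_scale, Rat.cast_inv] at hz
    have h1 := hS _ hz
    have h2 : z = (a : ℂ) * ((a : ℂ)⁻¹ * z) := by rw [mul_inv_cancel_left₀ haC]
    rw [h2]
    refine PowerIn.mul hu (PowerIn.of_mem ?_ haC) h1
    exact SubfieldClass.ratCast_mem E a

/-- The relations between the roots of the polynomials `x ^ g * h i (x + q i / x)`, the roots of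
`R` and a number of small rank are balanced. -/
def BalancedOver {I : Type} (E : Subfield ℂ) (r : ℕ) (q : I → ℕ) (h : I → ℤ[X]) (R : ℤ[X]) : Prop :=
  ∀ l : List (I × ℂ), (∀ x ∈ l, aeval x.2 (weil (q x.1) (h x.1)) = 0) → ∀ t : ℕ, 0 < t →
    ∀ ν ∈ Submonoid.closure {z : ℂ | aeval z R = 0}, ∀ ρ : ℂ, LowRank E r ρ → ∀ a : ℕ,
      (l.map fun x => x.2 ^ t).prod * (ν * ρ ^ a) = 1 →
        ∀ (i : I) (z : ℂ) [BEq (I × ℂ)] [LawfulBEq (I × ℂ)],
          l.count (i, z) = l.count (i, (q i : ℂ) / z)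

/-- Two automorphisms `σ` and `τ` which exchange `α` and `q / α`, such that `τ` fixes `σ β / β` for
all other roots `β` and `σ` fixes the roots of the other polynomials. -/
def Fl {I : Type} (q : I → ℕ) (h : I → ℤ[X]) (R : ℤ[X]) {L : Type} [Field L] [Algebra ℚ L]
    (i : I) (α : L) : Prop :=
  ∃ σ τ : L ≃ₐ[ℚ] L, σ α = q i / α ∧ τ α = q i / α ∧ α ≠ q i / α ∧
    (∀ β : L, aeval β (weil (q i) (h i)) = 0 → β ≠ α → β ≠ q i / α → τ (σ β / β) = σ β / β) ∧
    (∀ i', i' ≠ i → ∀ β : L, aeval β (weil (q i') (h i')) = 0 → σ β = β) ∧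
    ∀ β : L, aeval β R = 0 → σ β = β

lemma fl_of_flp {I : Type} {q : I → ℕ} {h : I → ℤ[X]} {R : ℤ[X]} (hq : ∀ i, q i ≠ 0)
    (hm : ∀ i, (h i).Monic) {L : Type} [Field L] [NumberField L] {i : I} {α : L}
    (hf : Flp q h R i α) : Fl q h R i α := by
  obtain ⟨σ, s1, s2, s3, s4, s5⟩ := hf
  refine ⟨σ, σ, s1, s1, s2, ?_, s4, s5⟩
  intro β hβ h1 h2
  have hβ0 : β ≠ 0 := root_ne_zero (hq i) (hm i) hβ
  rw [s3 β hβ h1 h2, div_self hβ0, map_one]

lemma fl_of_flp2 {I : Type} {q : I → ℕ} {h : I → ℤ[X]} {R : ℤ[X]} (hq : ∀ i, q i ≠ 0)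
    (hm : ∀ i, (h i).Monic) {L : Type} [Field L] [NumberField L] {i : I} {α : L}
    (hf : Flp2 q h R i α) : Fl q h R i α := by
  obtain ⟨α', σ, τ, n0, n1, n2, n3, n4, s1, s2, s3, s4, s5, t1, t2⟩ := hf
  have hqL : ((q i : ℕ) : L) ≠ 0 := by exact_mod_cast hq i
  refine ⟨σ, τ, s1, t1, n3, ?_, s4, s5⟩
  intro β hβ h1 h2
  have hβ0 : β ≠ 0 := root_ne_zero (hq i) (hm i) hβ
  by_cases h3 : β = α'
  · subst h3
    rw [s2, map_div₀, map_div₀, map_natCast, t2]
  · by_cases h4 : β = q i / α'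
    · subst h4
      have e1 : σ ((q i : L) / α') = α' := by
        rw [map_div₀, map_natCast, s2, div_div_cancel₀ hqL]
      rw [e1, map_div₀, map_div₀, map_natCast, t2]
    · rw [s3 β hβ h1 h2 h3 h4, div_self hβ0, map_one]

section Main

variable {I : Type} {q : I → ℕ} {h : I → ℤ[X]} {R : ℤ[X]} (hq : ∀ i, q i ≠ 0)
  (hm : ∀ i, (h i).Monic)
  (L : Type) [Field L] [NumberField L] [IsGalois ℚ L] (j : L →+* ℂ)
  (hL : ∀ i, ∀ z : ℂ, aeval z (weil (q i) (h i)) = 0 → ∃ x : L, j x = z)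
  (hirr : ∀ i, Irreducible ((h i).map (Int.castRingHom ℚ)))
  (key : ∀ i, ∀ α : L, aeval α (weil (q i) (h i)) = 0 → Fl q h R i α ∧
    ∀ t : ℕ, 0 < t → (α ^ 2) ^ t ≠ (q i : L) ^ t)
  (E : Subfield ℂ) (hE : ∀ σ : L ≃ₐ[ℚ] L, (∀ β : L, aeval β R = 0 → σ β = β) →
    ∀ x : L, j x ∈ E → σ x = x)

include hq hm

/-- no power of `q / α ^ 2` is one -/
lemma no_pow (key : ∀ i, ∀ α : L, aeval α (weil (q i) (h i)) = 0 → Fl q h R i α ∧
    ∀ t : ℕ, 0 < t → (α ^ 2) ^ t ≠ (q i : L) ^ t) (i : I) (α : L)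
    (hα : aeval α (weil (q i) (h i)) = 0) (t : ℕ) (ht : 0 < t)
    (h1 : ((q i : L) / α / α) ^ t = 1) : False := by
  have hα0 := root_ne_zero (hq i) (hm i) hα
  refine (key i α hα).2 t ht ?_
  have h3 : ((q i : L) / α / α) * α ^ 2 = q i := by
    field_simp
  have h4 : (((q i : L) / α / α) * α ^ 2) ^ t = (q i : L) ^ t := by rw [h3]
  rwa [mul_pow, h1, one_mul] at h4

include hL hirr key hE

/-- The squares of the roots do not have small rank. -/
theorem no_small (i₀ : I) (r : ℕ) (hr : r < (h i₀).natDegree)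
    (u : Fin r → ℂ) (hu0 : ∀ j, u j ≠ 0)
    (hU : ∀ y : L, aeval y (weil (q i₀) (h i₀)) = 0 → PowerIn E u (j y ^ 2)) : False := by
  classical
  have hqL : ((q i₀ : ℕ) : L) ≠ 0 := by exact_mod_cast hq i₀
  -- the real roots
  have hsplit := splits_h (I := Unit) (hq i₀) (fun _ => hm i₀) L j (fun _ => hL i₀) ()
  have hsep : ((h i₀).map (algebraMap ℤ L)).Separable := by
    have h1 := (hirr i₀).separable
    have h2 := h1.map (f := algebraMap ℚ L)
    rwa [Polynomial.map_map, RingHom.ext_int ((algebraMap ℚ L).comp (Int.castRingHom ℚ))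
      (algebraMap ℤ L)] at h2
  set Θ : Finset L := ((h i₀).map (algebraMap ℤ L)).roots.toFinset with hΘ
  have hΘcard : Θ.card = (h i₀).natDegree := by
    rw [hΘ, Multiset.toFinset_card_of_nodup (nodup_roots hsep), ← hsplit.natDegree_eq_card_roots,
      (hm i₀).natDegree_map]
  have hΘroot : ∀ θ ∈ Θ, aeval θ (h i₀) = 0 := by
    intro θ hθ
    have h1 := (mem_roots'.1 (Multiset.mem_toFinset.1 hθ)).2
    rw [IsRoot.def, eval_map] at h1
    exact h1
  have hex : ∀ θ : Θ, ∃ α : L, α ^ 2 + (q i₀ : L) = θ * α :=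
    fun θ => quad_L (I := Unit) (hq i₀) (fun _ => hm i₀) L j (fun _ => hL i₀) () θ (hΘroot θ θ.2)
  choose α hα using hex
  have hroot : ∀ θ : Θ, aeval (α θ) (weil (q i₀) (h i₀)) = 0 := by
    intro θ
    rw [aeval_weil (q i₀) (h i₀) (α θ) θ (hα θ), hΘroot θ θ.2, mul_zero]
  have hα0 : ∀ θ : Θ, α θ ≠ 0 := fun θ => root_ne_zero (hq i₀) (hm i₀) (hroot θ)
  have hαθ : ∀ θ : Θ, α θ + (q i₀ : L) / α θ = θ := by
    intro θ
    have := hα0 θ
    have h2 := hα θ
    field_simp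
    linear_combination h2
  choose M e m hM heE he0 hMe using fun θ : Θ => hU (α θ) (hroot θ)
  obtain ⟨b, hb0, hb⟩ := Pool.Agent.W484.AA.exists_int_relation r (by
    rw [Fintype.card_coe, hΘcard]
    exact hr) m
  obtain ⟨θ₀, hθ₀⟩ : ∃ θ, b θ ≠ 0 := by
    by_contra hall0
    push Not at hall0
    exact hb0 (funext hall0)
  -- the relation between the roots of one polynomial
  have hC : ∏ θ, ((j (α θ) ^ 2) ^ M θ) ^ b θ = ∏ θ, e θ ^ b θ := by
    have h1 : ∀ θ, ((j (α θ) ^ 2) ^ M θ) ^ b θ = e θ ^ b θ *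
        ∏ t, u t ^ (b θ * m θ t) := by
      intro θ
      rw [hMe θ, mul_zpow, ← Finset.prod_zpow]
      congr 1
      refine Finset.prod_congr rfl fun t _ => ?_
      rw [← zpow_mul, mul_comm (m θ t)]
    rw [Finset.prod_congr rfl fun θ _ => h1 θ, Finset.prod_mul_distrib, Finset.prod_comm]
    have h2 : ∏ t, ∏ θ, u t ^ (b θ * m θ t) = 1 := by
      refine Finset.prod_eq_one fun t _ => ?_
      have h3 : ∏ θ, u t ^ (b θ * m θ t) = u t ^ (∑ θ, b θ * m θ t) := by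
        have h4 : ∀ S : Finset Θ, ∏ θ ∈ S, u t ^ (b θ * m θ t) = u t ^ (∑ θ ∈ S, b θ * m θ t) := by
          intro S
          induction S using Finset.induction_on with
          | empty => simp
          | insert θ S hθ ih => rw [Finset.prod_insert hθ, Finset.sum_insert hθ, ih,
              zpow_add₀ (hu0 t)]
        exact h4 _
      rw [h3, hb t, zpow_zero]
    rw [h2, mul_one]
  set w : L := ∏ θ, ((α θ ^ 2) ^ M θ) ^ b θ with hw
  have hjw : j w ∈ E := by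
    have h1 : j w = ∏ θ, e θ ^ b θ := by
      rw [← hC, hw, map_prod]
      refine Finset.prod_congr rfl fun θ _ => ?_
      rw [map_zpow₀, map_pow, map_pow]
    rw [h1]
    exact prod_mem fun θ _ => zpow_mem (heE θ) _
  obtain ⟨⟨σ, τ, s1, t1, s2, s3, -, s5⟩, -⟩ := key i₀ (α θ₀) (hroot θ₀)
  have hσw := hE σ s5 w hjw
  -- the quotients
  set f : Θ → L := fun θ => σ (α θ) / α θ with hf
  have hf0 : ∀ θ, f θ ≠ 0 := fun θ => div_ne_zero (by rw [Ne, map_eq_zero]; exact hα0 θ) (hα0 θ)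
  have hfw : ∏ θ, ((f θ ^ 2) ^ M θ) ^ b θ = 1 := by
    have hw0 : w ≠ 0 := Finset.prod_ne_zero_iff.2 fun θ _ =>
      zpow_ne_zero _ (pow_ne_zero _ (pow_ne_zero _ (hα0 θ)))
    have h1 : σ w / w = ∏ θ, ((f θ ^ 2) ^ M θ) ^ b θ := by
      rw [hw, map_prod, ← Finset.prod_div_distrib]
      refine Finset.prod_congr rfl fun θ _ => ?_
      rw [map_zpow₀, map_pow, map_pow, hf, div_pow, div_pow, div_zpow]
    rw [← h1, hσw, div_self hw0]
  have hτf : ∏ θ, (((τ (f θ)) ^ 2) ^ M θ) ^ b θ = 1 := by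
    have h1 := congrArg τ hfw
    rw [map_prod, map_one] at h1
    rw [← h1]
    refine Finset.prod_congr rfl fun θ _ => ?_
    rw [map_zpow₀, map_pow, map_pow]
  have hg : ∏ θ, (((f θ / τ (f θ)) ^ 2) ^ M θ) ^ b θ = 1 := by
    have h1 : ∏ θ, (((f θ / τ (f θ)) ^ 2) ^ M θ) ^ b θ =
        (∏ θ, ((f θ ^ 2) ^ M θ) ^ b θ) / ∏ θ, (((τ (f θ)) ^ 2) ^ M θ) ^ b θ := by
      rw [← Finset.prod_div_distrib]
      refine Finset.prod_congr rfl fun θ _ => ?_
      rw [div_pow, div_pow, div_zpow]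
    rw [h1, hfw, hτf, div_one]
  have hother : ∀ θ ∈ Finset.univ, θ ≠ θ₀ → (((f θ / τ (f θ)) ^ 2) ^ M θ) ^ b θ = 1 := by
    intro θ _ hθ
    have h1 : τ (f θ) = f θ := by
      refine s3 (α θ) (hroot θ) ?_ ?_
      · intro h5
        apply hθ
        apply Subtype.ext
        rw [← hαθ, ← hαθ, h5]
      · intro h5
        apply hθ
        apply Subtype.ext
        rw [← hαθ, ← hαθ θ₀, h5, div_div_cancel₀ hqL, add_comm]
    rw [h1, div_self (hf0 θ), one_pow, one_pow, one_zpow]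
  rw [Finset.prod_eq_single θ₀ hother (fun h => absurd (Finset.mem_univ _) h)] at hg
  have e1 : f θ₀ = (q i₀ : L) / α θ₀ / α θ₀ := by
    change σ (α θ₀) / α θ₀ = _
    rw [s1]
  have e2 : τ (f θ₀) = (f θ₀)⁻¹ := by
    rw [e1, map_div₀, map_div₀, map_natCast, t1, div_div_cancel₀ hqL, inv_div]
  rw [e2, div_inv_eq_mul, ← pow_two, ← pow_mul, ← pow_mul] at hg
  have hnat : f θ₀ ^ (2 * (2 * M θ₀) * (b θ₀).natAbs) = 1 := by
    rw [pow_mul]
    rcases Int.natAbs_eq (b θ₀) with h11 | h11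
    · rw [h11, zpow_natCast] at hg
      exact hg
    · rw [h11, zpow_neg, zpow_natCast, inv_eq_one] at hg
      exact hg
  rw [e1] at hnat
  exact no_pow hq hm L key i₀ (α θ₀) (hroot θ₀) _
    (Nat.mul_pos (Nat.mul_pos two_pos (Nat.mul_pos two_pos (hM θ₀))) (Int.natAbs_pos.2 hθ₀)) hnat

/-- The relations are balanced. -/
theorem bal_L (r : ℕ) (hr : ∀ i, r < (h i).natDegree)
    (ρ : L) (hrank : ∃ u : Fin r → ℂ, (∀ j, u j ≠ 0) ∧ ∀ κ : L ≃ₐ[ℚ] L, PowerIn E u (j (κ ρ)))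
    (l : List (I × L)) (hl : ∀ x ∈ l, aeval x.2 (weil (q x.1) (h x.1)) = 0) (t : ℕ) (ht : 0 < t)
    (ν : L) (hν : ν ∈ Submonoid.closure {x : L | aeval x R = 0})
    (hprod : (l.map fun x => x.2).prod ^ t * (ν * ρ) = 1) (i : I) (α : L)
    (hα : aeval α (weil (q i) (h i)) = 0)
    [BEq (I × L)] [LawfulBEq (I × L)] :
    ¬ l.count (i, (q i : L) / α) < l.count (i, α) := by
  classical
  intro hlt
  have hqL : ((q i : ℕ) : L) ≠ 0 := by exact_mod_cast hq i
  have hα0 := root_ne_zero (hq i) (hm i) hα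
  obtain ⟨⟨σ, τ, s1, t1, s2, s3, s4, s5⟩, -⟩ := key i α hα
  set P : L := (l.map fun x => x.2).prod with hP
  have hPt : P ^ t ≠ 0 := by
    intro h0
    rw [h0, zero_mul] at hprod
    exact zero_ne_one hprod
  have hνρ : ν * ρ ≠ 0 := by
    intro h0
    rw [h0, mul_zero] at hprod
    exact zero_ne_one hprod
  have hν0 : ν ≠ 0 := left_ne_zero_of_mul hνρ
  have hρ0 : ρ ≠ 0 := right_ne_zero_of_mul hνρ
  have hP0 : P ≠ 0 := by
    intro h0
    rw [h0, zero_pow ht.ne'] at hPt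
    exact hPt rfl
  have hσν : σ ν = ν := by
    have hall : ∀ y ∈ Submonoid.closure {x : L | aeval x R = 0}, σ y = y := by
      intro y hy
      induction hy using Submonoid.closure_induction with
      | mem x hx => exact s5 x hx
      | one => exact map_one σ
      | mul x y _ _ h1 h2 => rw [map_mul, h1, h2]
    exact hall ν hν
  set F : L := σ P / P with hF
  have hF0 : F ≠ 0 := div_ne_zero (by rw [Ne, map_eq_zero]; exact hP0) hP0
  have hσρ0 : σ ρ ≠ 0 := by rw [Ne, map_eq_zero]; exact hρ0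
  have hFt : F ^ t * σ ρ = ρ := by
    have h1 := congrArg σ hprod
    rw [map_mul, map_pow, map_mul, hσν, map_one, ← hprod] at h1
    rw [hF, div_pow]
    field_simp
    apply mul_left_cancel₀ hν0
    linear_combination h1
  have hτF : (τ F) ^ t * τ (σ ρ) = τ ρ := by
    have h1 := congrArg τ hFt
    rwa [map_mul, map_pow] at h1
  set r₀ : L := (q i : L) / α / α with hr₀
  have hr0 : r₀ ≠ 0 := div_ne_zero (div_ne_zero hqL hα0) hα0
  have hτr : τ r₀ = r₀⁻¹ := by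
    rw [hr₀, map_div₀, map_div₀, map_natCast, t1, div_div_cancel₀ hqL, inv_div]
  have hab : (i, α) ≠ (i, (q i : L) / α) := by
    intro h0
    exact s2 (Prod.ext_iff.1 h0).2
  have htwo := prod_two (fun x : I × L => (σ x.2 / x.2) / τ (σ x.2 / x.2)) (i, α)
    (i, (q i : L) / α) hab (r₀ ^ 2) (pow_ne_zero _ hr0)
    (by
      simp only
      rw [s1, ← hr₀, hτr, div_inv_eq_mul, pow_two])
    (by
      simp only
      have e1 : σ ((q i : L) / α) / ((q i : L) / α) = r₀⁻¹ := by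
        rw [hr₀, map_div₀, map_natCast, s1, div_div_cancel₀ hqL, inv_div]
      rw [e1, map_inv₀, hτr, inv_inv, pow_two, mul_inv, div_eq_mul_inv]) l (by
      rintro ⟨i', x⟩ hx h1 h2
      have hx' := hl _ hx
      have hx0 : x ≠ 0 := root_ne_zero (hq i') (hm i') hx'
      by_cases hi : i' = i
      · subst hi
        change (σ x / x) / τ (σ x / x) = 1
        rw [s3 x hx' (fun e => h1 (by rw [e])) (fun e => h2 (by rw [e]))]
        exact div_self (div_ne_zero (by rw [Ne, map_eq_zero]; exact hx0) hx0)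
      · change (σ x / x) / τ (σ x / x) = 1
        rw [s4 i' hi x hx', div_self hx0, map_one, div_one])
  have hprodg : (l.map fun x : I × L => (σ x.2 / x.2) / τ (σ x.2 / x.2)).prod = F / τ F := by
    have e1 : ∀ k : List (I × L), (k.map fun x : I × L => (σ x.2 / x.2) / τ (σ x.2 / x.2)).prod =
        (σ (k.map fun x => x.2).prod / (k.map fun x => x.2).prod) /
          τ (σ (k.map fun x => x.2).prod / (k.map fun x => x.2).prod) := by
      intro k
      induction k with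
      | nil => simp
      | cons a k ih =>
        rw [List.map_cons, List.prod_cons, ih, List.map_cons, List.prod_cons, map_mul,
          div_mul_div_comm, ← map_mul, div_mul_div_comm]
    exact e1 l
  rw [hprodg] at htwo
  -- the consequence for the numbers of small rank
  obtain ⟨d, hd⟩ := Nat.exists_eq_add_of_lt hlt
  rw [hd] at htwo
  have hτF0 : τ F ≠ 0 := by rw [Ne, map_eq_zero]; exact hF0
  have hFF : F = τ F * (r₀ ^ 2) ^ (d + 1) := by
    have h2 : (r₀ ^ 2) ^ l.count (i, (q i : L) / α) ≠ 0 := pow_ne_zero _ (pow_ne_zero _ hr0)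
    apply mul_right_cancel₀ h2
    have h3 : F * (r₀ ^ 2) ^ l.count (i, (q i : L) / α) =
        τ F * (r₀ ^ 2) ^ (l.count (i, (q i : L) / α) + d + 1) := by
      rw [← htwo]
      field_simp
    rw [h3]
    ring
  set K : ℕ := (d + 1) * t with hK
  have hKpos : 0 < K := Nat.mul_pos (Nat.succ_pos d) ht
  -- `q ^ (2 K) ρ₂ ρ₃ = α ^ (4 K) ρ₁ ρ₄`
  have hstep : ((q i : L) ^ 2) ^ K * (σ ρ * τ ρ) = ((α ^ 2) ^ 2) ^ K * (ρ * τ (σ ρ)) := by
    have h1 : F ^ t = (τ F) ^ t * (r₀ ^ 2) ^ K := by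
      calc F ^ t = (τ F * (r₀ ^ 2) ^ (d + 1)) ^ t := congrArg (fun x => x ^ t) hFF
        _ = (τ F) ^ t * (r₀ ^ 2) ^ K := by rw [mul_pow, hK, pow_mul]
    have h2 : r₀ * α ^ 2 = q i := by
      rw [hr₀]
      field_simp
    have h4 : (τ F) ^ t ≠ 0 := pow_ne_zero _ hτF0
    apply mul_left_cancel₀ h4
    calc (τ F) ^ t * (((q i : L) ^ 2) ^ K * (σ ρ * τ ρ))
        = (τ F) ^ t * ((((r₀ * α ^ 2)) ^ 2) ^ K * (σ ρ * τ ρ)) := by rw [h2]
      _ = ((τ F) ^ t * (r₀ ^ 2) ^ K) * σ ρ * τ ρ * ((α ^ 2) ^ 2) ^ K := by ring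
      _ = (F ^ t * σ ρ) * τ ρ * ((α ^ 2) ^ 2) ^ K := by rw [h1]
      _ = ρ * ((τ F) ^ t * τ (σ ρ)) * ((α ^ 2) ^ 2) ^ K := by rw [hFt, hτF]
      _ = _ := by ring
  obtain ⟨u, hu0, hconj⟩ := hrank
  have hqE : ∀ n : ℕ, PowerIn E u (((q i : ℕ) : ℂ) ^ n) := by
    intro n
    have h1 : ((q i : ℕ) : ℂ) ≠ 0 := by exact_mod_cast hq i
    exact PowerIn.of_mem (E.pow_mem (natCast_mem E _) n) (pow_ne_zero _ h1)
  refine no_small hq hm L j hL hirr key E hE i r (hr i) u hu0 fun y hy => ?_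
  have hy0 : y ≠ 0 := root_ne_zero (hq i) (hm i) hy
  obtain ⟨κ, hκ⟩ := exists_tau (I := Unit) (hq i) (fun _ => hm i) L j (fun _ => hL i) ()
    (hirr i) α y hα hy
  have h1 := congrArg (fun x => j (κ x)) hstep
  simp only [map_mul, map_pow, map_natCast] at h1
  have hjn : ∀ κ : L ≃ₐ[ℚ] L, j (κ ρ) ≠ 0 := by
    intro κ
    rw [Ne, map_eq_zero, map_eq_zero]
    exact hρ0
  -- `(j (κ α)) ^ (4 K)` has a power in the group
  have h2 : PowerIn E u (j (κ α) ^ 2) := by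
    have h3 : (j (κ α) ^ 2) ^ (2 * K) = ((q i : ℕ) : ℂ) ^ (2 * K) *
        (j ((σ.trans κ) ρ) * j ((τ.trans κ) ρ)) *
          (j (κ ρ) * j (((σ.trans τ).trans κ) ρ))⁻¹ := by
      have h4 : j (κ ρ) * j (((σ.trans τ).trans κ) ρ) ≠ 0 := mul_ne_zero (hjn κ) (hjn _)
      rw [eq_mul_inv_iff_mul_eq₀ h4]
      have h5 : (j (κ α) ^ 2) ^ (2 * K) = ((j (κ α) ^ 2) ^ 2) ^ K := by ring
      have h6 : ((q i : ℕ) : ℂ) ^ (2 * K) = (((q i : ℕ) : ℂ) ^ 2) ^ K := by ring
      rw [h5, h6]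
      exact h1.symm
    refine PowerIn.of_pow (k := 2 * K) (by omega) ?_
    rw [h3]
    exact PowerIn.mul hu0 (PowerIn.mul hu0 (hqE _) (PowerIn.mul hu0 (hconj _) (hconj _)))
      (PowerIn.inv (PowerIn.mul hu0 (hconj _) (hconj _)))
  rcases hκ with e | e
  · rw [e] at h2
    exact h2
  · rw [e, map_div₀, map_natCast] at h2
    have h3 : j y ^ 2 = ((q i : ℕ) : ℂ) ^ 2 * ((((q i : ℕ) : ℂ) / j y) ^ 2)⁻¹ := by
      have h4 : j y ≠ 0 := by rw [Ne, map_eq_zero]; exact hy0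
      have h5 : ((q i : ℕ) : ℂ) ≠ 0 := by exact_mod_cast hq i
      field_simp
    rw [h3]
    exact PowerIn.mul hu0 (hqE _) (PowerIn.inv h2)

end Main

/-- The relations between complex numbers are balanced. -/
theorem bal_C {I : Type} [Finite I] {q : I → ℕ} {h : I → ℤ[X]} {R : ℤ[X]} (hq : ∀ i, q i ≠ 0)
    (hm : ∀ i, (h i).Monic) (hR : R.Monic)
    (hirr : ∀ i, Irreducible ((h i).map (Int.castRingHom ℚ)))
    (E : Subfield ℂ) (hRE : ∀ x ∈ E, x ∈ Submodule.span ℚ {z : ℂ | aeval z R = 0})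
    (key : ∀ (L : Type) [Field L] [NumberField L] [IsGalois ℚ L] (j : L →+* ℂ),
      (∀ i, ∀ z : ℂ, aeval z (weil (q i) (h i)) = 0 → ∃ x : L, j x = z) →
      ∀ i, ∀ α : L, aeval α (weil (q i) (h i)) = 0 → Fl q h R i α ∧
        ∀ t : ℕ, 0 < t → (α ^ 2) ^ t ≠ (q i : L) ^ t)
    (r : ℕ) (hr : ∀ i, r < (h i).natDegree) : BalancedOver E r q h R := by
  classical
  cases nonempty_fintype I
  rintro l hl t ht ν hν ρ ⟨χ, hχ0, hχ, u, hu0, hu⟩ a hprod i z _ _
  have hqC : ((q i : ℕ) : ℂ) ≠ 0 := by exact_mod_cast hq i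
  by_cases hz0 : z = 0
  · rw [hz0, div_zero]
  by_cases hz : aeval z (weil (q i) (h i)) = 0
  swap
  · have h1 : (i, z) ∉ l := by
      intro h1
      have h3 : aeval z (weil (q i) (h i)) = 0 := hl (i, z) h1
      exact hz h3
    have h2 : (i, (q i : ℂ) / z) ∉ l := by
      intro h2
      have h3 : aeval ((q i : ℂ) / z) (weil (q i) (h i)) = 0 := hl (i, (q i : ℂ) / z) h2
      have h4 := root_conj (hq i) (hm i) h3
      rw [div_div_cancel₀ hqC] at h4
      exact hz h4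
    exact (List.count_eq_zero.2 h1).trans (List.count_eq_zero.2 h2).symm
  -- the field
  let T : Finset ℂ := ((Finset.univ.biUnion fun i =>
    ((weil (q i) (h i)).map (algebraMap ℤ ℂ)).roots.toFinset) ∪
      (R.map (algebraMap ℤ ℂ)).roots.toFinset) ∪ {ρ}
  have hTint : ∀ y : T, IsIntegral ℚ (y : ℂ) := by
    rintro ⟨y, hy⟩
    rcases Finset.mem_union.1 hy with h0 | h1
    · rcases Finset.mem_union.1 h0 with h1 | h1
      · obtain ⟨i, -, h2⟩ := Finset.mem_biUnion.1 h1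
        have h3 := (mem_roots'.1 (Multiset.mem_toFinset.1 h2)).2
        rw [IsRoot.def, eval_map] at h3
        have h4 : IsIntegral ℤ y := ⟨weil (q i) (h i), weil_monic (q i) (hm i), h3⟩
        exact h4.tower_top
      · have h3 := (mem_roots'.1 (Multiset.mem_toFinset.1 h1)).2
        rw [IsRoot.def, eval_map] at h3
        have h4 : IsIntegral ℤ y := ⟨R, hR, h3⟩
        exact h4.tower_top
    · rw [Finset.mem_singleton] at h1
      subst h1
      exact (isAlgebraic_iff_isIntegral).1 ⟨χ, hχ0, hχ⟩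
  obtain ⟨L, hL1, hL2, j, hj⟩ := Pool.Agent.W484.AA.exists_galois_of_rat (fun y : T => (y : ℂ)) hTint
  have hL : ∀ i, ∀ z : ℂ, aeval z (weil (q i) (h i)) = 0 → ∃ x : L, j x = z := by
    intro i z hz
    refine hj ⟨z, Finset.mem_union.2 (Or.inl (Finset.mem_union.2 (Or.inl
      (Finset.mem_biUnion.2 ⟨i, Finset.mem_univ _, ?_⟩))))⟩
    rw [Multiset.mem_toFinset, mem_roots ((weil_monic (q i) (hm i)).map _).ne_zero, IsRoot.def,
      eval_map]
    exact hz
  have hLR : ∀ z : ℂ, aeval z R = 0 → ∃ x : L, j x = z := by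
    intro z hz
    refine hj ⟨z, Finset.mem_union.2 (Or.inl (Finset.mem_union.2 (Or.inr ?_)))⟩
    rw [Multiset.mem_toFinset, mem_roots (hR.map _).ne_zero, IsRoot.def, eval_map]
    exact hz
  obtain ⟨ρ', hρ'⟩ : ∃ y : L, j y = ρ := hj ⟨ρ, Finset.mem_union.2 (Or.inr (by simp))⟩
  have hE : ∀ σ : L ≃ₐ[ℚ] L, (∀ β : L, aeval β R = 0 → σ β = β) → ∀ x : L, j x ∈ E → σ x = x := by
    intro σ hσ x hx
    have h1 : ∀ z ∈ Submodule.span ℚ {z : ℂ | aeval z R = 0}, ∃ y : L, j y = z ∧ σ y = y := by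
      intro z hz
      induction hz using Submodule.span_induction with
      | mem z hz =>
        obtain ⟨y, hy⟩ := hLR z hz
        exact ⟨y, hy, hσ y (aeval_down j _ y (by rw [hy]; exact hz))⟩
      | zero => exact ⟨0, map_zero j, map_zero σ⟩
      | add a b _ _ ha hb =>
        obtain ⟨y, hy, hy'⟩ := ha
        obtain ⟨w, hw, hw'⟩ := hb
        exact ⟨y + w, by rw [map_add, hy, hw], by rw [map_add, hy', hw']⟩
      | smul c a _ ha =>
        obtain ⟨y, hy, hy'⟩ := ha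
        refine ⟨(c : L) * y, ?_, by rw [map_mul, hy', map_ratCast]⟩
        rw [map_mul, hy, map_ratCast]
        exact (Rat.smul_def c a).symm
    obtain ⟨y, hy, hy'⟩ := h1 _ (hRE _ hx)
    rw [← j.injective hy]
    exact hy'
  have hjq : ∀ (f : ℚ[X]) (x : L), j (aeval x f) = aeval (j x) f := by
    intro f x
    have h2 := Polynomial.hom_eval₂ f (algebraMap ℚ L) j x
    rw [RingHom.ext_rat (j.comp (algebraMap ℚ L)) (algebraMap ℚ ℂ)] at h2
    exact h2
  have hχL : aeval ρ' χ = 0 := by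
    apply j.injective
    rw [hjq, hρ', hχ, map_zero]
  have hrank : ∃ u : Fin r → ℂ, (∀ j, u j ≠ 0) ∧
      ∀ κ : L ≃ₐ[ℚ] L, PowerIn E u (j (κ (ρ' ^ a))) := by
    refine ⟨u, hu0, fun κ => ?_⟩
    rw [map_pow, map_pow]
    refine PowerIn.pow (hu _ ?_) a
    change aeval (j (κ ρ')) χ = 0
    have h1 := Polynomial.aeval_algHom_apply (κ : L →ₐ[ℚ] L) ρ' χ
    rw [hχL, map_zero] at h1
    have h2 : aeval (κ ρ') χ = 0 := h1
    rw [← hjq, h2, map_zero]
  -- everything in `L`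
  obtain ⟨l', rfl, hl'⟩ : ∃ l' : List (I × L), l'.map (Prod.map id j) = l ∧
      ∀ x ∈ l', aeval x.2 (weil (q x.1) (h x.1)) = 0 := by
    clear hprod
    induction l with
    | nil => exact ⟨[], rfl, by simp⟩
    | cons a T ih =>
      obtain ⟨T', h1, h2⟩ := ih fun z hz => hl z (List.mem_cons_of_mem a hz)
      have h3 := hl a List.mem_cons_self
      obtain ⟨x, hx⟩ := hL a.1 a.2 h3
      refine ⟨(a.1, x) :: T', ?_, ?_⟩
      · rw [List.map_cons, h1]
        congr 1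
        exact Prod.ext rfl hx
      · intro y hy
        rcases List.mem_cons.1 hy with e | e
        · rw [e]
          exact aeval_down j _ x (by rw [hx]; exact h3)
        · exact h2 y e
  obtain ⟨ν', rfl, hν'⟩ : ∃ ν' : L, j ν' = ν ∧ ν' ∈ Submonoid.closure {x : L | aeval x R = 0} := by
    clear hprod
    induction hν using Submonoid.closure_induction with
    | mem x hx =>
      obtain ⟨y, hy⟩ := hLR x hx
      exact ⟨y, hy, Submonoid.subset_closure (aeval_down j _ y (by rw [hy]; exact hx))⟩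
    | one => exact ⟨1, map_one j, one_mem _⟩
    | mul x y _ _ h1 h2 =>
      obtain ⟨a, ha, ha'⟩ := h1
      obtain ⟨b, hb, hb'⟩ := h2
      exact ⟨a * b, by rw [map_mul, ha, hb], mul_mem ha' hb'⟩
  obtain ⟨α, rfl⟩ := hL i z hz
  have hα : aeval α (weil (q i) (h i)) = 0 := aeval_down j _ α hz
  have hα0 := root_ne_zero (hq i) (hm i) hα
  have hinj : Function.Injective (Prod.map id j : I × L → I × ℂ) :=
    Function.Injective.prodMap Function.injective_id j.injective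
  have hqj : (q i : ℂ) / j α = j (q i / α) := by rw [map_div₀, map_natCast]
  rw [hqj]
  refine count_transfer (Prod.map id j) hinj l' (i, α) (i, (q i : L) / α) ?_
  have hqL : ((q i : ℕ) : L) ≠ 0 := by exact_mod_cast hq i
  have hPe : (l'.map fun x => x.2).prod ^ t * (ν' * ρ' ^ a) = 1 := by
    apply j.injective
    have e1 : ∀ k : List (I × L), ((k.map (Prod.map id j)).map fun x : I × ℂ => x.2 ^ t).prod =
        (j (k.map fun x => x.2).prod) ^ t := by
      intro k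
      induction k with
      | nil => simp
      | cons a k ih =>
        rw [List.map_cons, List.map_cons, List.prod_cons, ih, List.map_cons, List.prod_cons,
          map_mul, mul_pow]
        rfl
    rw [map_mul, map_pow, map_mul, map_pow, map_one, hρ', ← hprod, e1]
  have key' := key L j hL
  have h1 := bal_L hq hm L j hL hirr key' E hE r hr (ρ' ^ a) hrank l' hl' t ht ν' hν' hPe i α hα
  have h2 := bal_L hq hm L j hL hirr key' E hE r hr (ρ' ^ a) hrank l' hl' t ht ν' hν' hPe i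
    ((q i : L) / α) (root_conj (hq i) (hm i) hα)
  rw [div_div_cancel₀ hqL] at h2
  omega

end Pool.Agent.W458.RK
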