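import Pool.Agent.W458.RK.Rank
import Pool.Agent.W458.MF.Gen8

/-!
# Almost all tuples have no relations with numbers of small rank
-/

set_option autoImplicit false

open CategoryTheory AlgebraicGeometry Polynomial NumberField

universe u v

namespace Pool.Agent.W458.RK

open Pool.Agent.W458.MF Pool.Agent.W521.Frob Pool.Agent.W521.Criterion Pool.Agent.W338.MF
  Pool.Agent.W928.MF Pool.Agent.H914 Pool.Agent.W534 VarClass Obj WeilCohomology

/-- The patterns imply that the relations with numbers of small rank are balanced. -/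
theorem nt3 (hF : St_FLIP) (hF2 : St_FLIP2) (hX : St_FIX) {I : Type} [Finite I]
    (E : Subfield ℂ) (r : ℕ) {R : ℤ[X]}
    (hRE : ∀ x ∈ E, x ∈ Submodule.span ℚ {z : ℂ | aeval z R = 0})
    (o : I → Prop) (q : I → ℕ) (h : I → ℤ[X])
    (hr : ∀ i, r < (h i).natDegree)
    (N : ℕ) (hN : 0 < N) (hq : ∀ i, 0 < q i) (hm : ∀ i, (h i).Monic)
    (hd : ∀ i, 0 < (h i).natDegree) (hR : R.Monic)
    (huni : ∀ i, ∀ z : ℂ, (∃ t : ℕ, 0 < t ∧ z ^ t = 1) →
      (∃ P : ℚ[X], P ≠ 0 ∧ P.natDegree ≤ 2 * (h i).natDegree ∧ aeval z P = 0) → z ^ N = 1)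
    (hirr0 : ∀ i, ∃ l : ℕ, l.Prime ∧
      (h i).map (Int.castRingHom (ZMod l)) ∈ irrSet (h i).natDegree l)
    (hflip : ∀ i₀, ¬ o i₀ → ∃ l : ℕ, l.Prime ∧ l ≠ 2 ∧ (∀ i, ¬ l ∣ q i) ∧ SplitsMod R l ∧
      (h i₀).map (Int.castRingHom (ZMod l)) ∈ flipSet (h i₀).natDegree N l (q i₀) ∧
      ∀ i, i ≠ i₀ → (h i).map (Int.castRingHom (ZMod l)) ∈ splitSet (h i).natDegree l (q i))
    (hflip2 : ∀ i₀, o i₀ → 3 ≤ (h i₀).natDegree ∧
      (∃ l : ℕ, l.Prime ∧ (h i₀).map (Int.castRingHom (ZMod l)) ∈ fixSet (h i₀).natDegree l) ∧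
      ∃ l : ℕ, l.Prime ∧ l ≠ 2 ∧ (∀ i, ¬ l ∣ q i) ∧ SplitsMod R l ∧
        (h i₀).map (Int.castRingHom (ZMod l)) ∈ flip2Set (h i₀).natDegree N l (q i₀) ∧
        ∀ i, i ≠ i₀ → (h i).map (Int.castRingHom (ZMod l)) ∈ splitSet (h i).natDegree l (q i)) :
    BalancedOver E r q h R := by
  classical
  have hq' : ∀ i, q i ≠ 0 := fun i => (hq i).ne'
  have hirr : ∀ i, Irreducible ((h i).map (Int.castRingHom ℚ)) := by
    intro i
    obtain ⟨l, hl, h1, h2, h3⟩ := hirr0 i
    have : Fact l.Prime := ⟨hl⟩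
    have h4 : Irreducible (h i) :=
      Monic.irreducible_of_irreducible_map (Int.castRingHom (ZMod l)) (h i) (hm i) h3
    exact (IsPrimitive.Int.irreducible_iff_irreducible_map_cast (hm i).isPrimitive).1 h4
  refine bal_C hq' hm hR hirr E hRE ?_ r hr
  intro L _ _ _ j hL
  have hsp : ∀ i, ((h i).map (algebraMap ℤ L)).Splits := fun i =>
    splits_h (I := Unit) (hq' i) (fun _ => hm i) L j (fun _ => hL i) ()
  have hqd : ∀ i, ∀ θ : L, aeval θ (h i) = 0 → ∃ α : L, α ^ 2 + (q i : L) = θ * α := fun i =>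
    quad_L (I := Unit) (hq' i) (fun _ => hm i) L j (fun _ => hL i) ()
  have key : ∀ i, ∀ α : L, aeval α (weil (q i) (h i)) = 0 →
      (Flp q h R i α ∨ Flp2 q h R i α) ∧
      ∀ t : ℕ, 0 < t → (α ^ 2) ^ t ≠ (q i : L) ^ t := by
    intro i α hα
    by_cases ho : o i
    · obtain ⟨hdeg, ⟨l', hl', hfix⟩, l, hl, hl2, hlq, hlR, hfl, hspl⟩ := hflip2 i ho
      obtain ⟨T, t₀, t₁, hTc, ht₀, ht₁, hne01, hT, hns0, hns1, hlu, hsq⟩ := hfl
      obtain ⟨σ, θ₀, θ₁, a1, a2, a3, a4, a5, a6, a7, a8⟩ := hF2 q h R (luc (q i) N) hm hR L i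
        (hsp i) (hqd i) l hl hl2 hlq hlR hspl ⟨T, t₀, t₁, ht₀, ht₁, hne01, hT, hns0, hns1, hlu, hsq⟩
      have hE : Edg q h R i θ₀ θ₁ := ⟨σ, a5, a6, a7, a8⟩
      obtain ⟨ρ, ϑ, b1, b2, b3⟩ := hX (h i) (hm i) hdeg L (hsp i) l' hl' hfix
      have hqL : (q i : L) ≠ 0 := by exact_mod_cast hq' i
      refine ⟨Or.inr ?_, ?_⟩
      · have hθ := ((root_iff (hq' i) (hm i) α).1 hα).2
        obtain ⟨θ', θ'', c1, c2, c3, c4, c5⟩ := two_partners hm L i (hirr i) θ₀ θ₁ a1 a2 a3 hE
          ρ ϑ b1 b2 b3 (α + (q i : L) / α) hθ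
        exact flp2_of_edg hq' hm L i (hqd i) α hα θ' θ'' c1 c2 c3 c4 c5
      · intro t ht hαt
        obtain ⟨α₀, hα₀⟩ := hqd i θ₀ a1
        have hα₀0 : α₀ ≠ 0 := by
          rintro rfl
          rw [zero_pow two_ne_zero, zero_add, mul_zero] at hα₀
          exact hqL hα₀
        have hα₀w : aeval α₀ (weil (q i) (h i)) = 0 := by
          rw [aeval_weil (q i) (h i) α₀ θ₀ hα₀, a1, mul_zero]
        have hθe : α₀ + (q i : L) / α₀ = θ₀ := by
          apply mul_right_cancel₀ hα₀0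
          rw [← hα₀]
          field_simp
        have hne := (a5 α₀ hα₀w (Or.inl hθe)).2
        refine no_rou hq' hm L j hL i (hirr i) (huni i) α₀ hα₀w hne ?_ α hα t ht hαt
        rw [hθe]
        exact a4
    · obtain ⟨l, hl, hl2, hlq, hlR, hfl, hspl⟩ := hflip i ho
      obtain ⟨T, t₀, hTc, ht₀, hT, hns, hlu, hsq⟩ := hfl
      obtain ⟨σ, α₀, a1, a2, a3, a4, a5, a6, a7⟩ := hF q h R (luc (q i) N) hm hR L i (hsp i)
        (hqd i) l hl hl2 hlq hlR hspl ⟨T, t₀, ht₀, hT, hns, hlu, hsq⟩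
      have hfl0 : Flp q h R i α₀ := ⟨σ, a2, a3, a5, a6, a7⟩
      exact ⟨Or.inl (flp_conj hq' hm L j hL i (hirr i) α₀ a1 hfl0 α hα), fun t ht hαt =>
        no_rou hq' hm L j hL i (hirr i) (huni i) α₀ a1 a3 a4 α hα t ht hαt⟩
  intro i α hα
  obtain ⟨h1, h2⟩ := key i α hα
  refine ⟨?_, h2⟩
  rcases h1 with h1 | h1
  · exact fl_of_flp hq' hm h1
  · exact fl_of_flp2 hq' hm h1

lemma aeval_sigma_inv {K : Type*} [Field K] (σ : K →+* ℂ) {f : ℤ[X]} {x : K}
    (h : aeval (σ x) f = 0) : aeval x f = 0 := by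
  apply σ.injective
  have h2 := Polynomial.hom_eval₂ f (algebraMap ℤ K) σ x
  rw [RingHom.ext_int (σ.comp (algebraMap ℤ K)) (algebraMap ℤ ℂ)] at h2
  rw [map_zero]
  exact h2.trans h

/-- A number field is contained in the rational span of finitely many algebraic integers. -/
lemma exists_spanning (E : Subfield ℂ) [NumberField E] : ∃ S : Set ℂ, S.Finite ∧
    (∀ x ∈ S, IsIntegral ℤ x) ∧ ∀ x ∈ E, x ∈ Submodule.span ℚ S := by
  classical
  let b := Module.finBasis ℚ E
  have h1 : ∀ i, ∃ n : nonZeroDivisors ℤ, IsIntegral ℤ (n • ((b i : E) : ℂ)) := by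
    intro i
    have h2 : IsIntegral ℚ (b i) := Algebra.IsIntegral.isIntegral (b i)
    have h3 : IsIntegral ℚ ((b i : E) : ℂ) := by
      obtain ⟨f, hf, hf0⟩ := h2
      refine ⟨f, hf, ?_⟩
      have h4 := Polynomial.hom_eval₂ f (algebraMap ℚ E) E.subtype (b i)
      rw [hf0, map_zero, RingHom.ext_rat (E.subtype.comp (algebraMap ℚ E)) (algebraMap ℚ ℂ)] at h4
      exact h4.symm
    exact IsIntegral.exists_multiple_integral_of_isLocalization (nonZeroDivisors ℤ) _ h3
  choose n hn using h1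
  refine ⟨Set.range fun i => n i • ((b i : E) : ℂ), Set.finite_range _, ?_, ?_⟩
  · rintro _ ⟨i, rfl⟩
    exact hn i
  · intro x hx
    have h2 := b.sum_repr ⟨x, hx⟩
    have h3 : x = ∑ i, (b.repr ⟨x, hx⟩ i) • ((b i : E) : ℂ) := by
      have h4 := congrArg E.subtype h2
      rw [map_sum] at h4
      refine (h4.symm.trans ?_ : E.subtype ⟨x, hx⟩ = _)
      refine Finset.sum_congr rfl fun i _ => ?_
      rw [Rat.smul_def, Rat.smul_def, map_mul, map_ratCast]
      rfl
    rw [h3]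
    refine Submodule.sum_mem _ fun i _ => Submodule.smul_mem _ _ ?_
    have hn0 : (((n i : ℤ) : ℚ)) ≠ 0 := by exact_mod_cast nonZeroDivisors.ne_zero (n i).2
    have h5 : ((b i : E) : ℂ) = ((((n i : ℤ) : ℚ))⁻¹) • (n i • ((b i : E) : ℂ)) := by
      have h6 : (n i • ((b i : E) : ℂ)) = (((n i : ℤ) : ℚ) : ℂ) * ((b i : E) : ℂ) := by
        rw [Rat.cast_intCast]
        exact zsmul_eq_mul _ _
      rw [h6, Rat.smul_def, Rat.cast_inv, inv_mul_cancel_left₀]
      exact_mod_cast nonZeroDivisors.ne_zero (n i).2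
    rw [h5]
    exact Submodule.smul_mem _ _ (Submodule.subset_span ⟨i, rfl⟩)

variable {k : Type u} [Field k] {𝒱 : VarClass k} {ops : CycleOps 𝒱}
  {W : WeilCohomology.{u, v} ops} {Y : 𝒱.Obj} {p : ℕ} {Φ : FrobSystem W p}

theorem mixed_setup3 [IsAlgClosed W.K] (hS : St_SIEVE) (hD : St_DENS) (hO : St_ODENS) (hE : St_EDENS) (hSPL : St_SPL)
    (hUNI : St_UNI) (hNT : St_NT2) (hFL : St_FLIP) (hFL2 : St_FLIP2) (hFX : St_FIX) (σ : W.K →+* ℂ) (hp : p.Prime)
    (hint : ∀ μ : W.K, Module.End.HasEigenvalue (W.map (Φ.Fr Y)).toLinearMap μ → IsIntegral ℤ μ)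
    {I : Type} [Fintype I] (F : I → Family W Y) (d n g e l₀ : I → ℕ) (δ : I → ℤˣ)
    (D : I → ℤ[X]) (π : I → ∀ m l : ℕ, Set (ZMod l)[X] → ℝ)
    (hF : ∀ i, Fam.HasLaw (F i) Φ (d i) (n i) (g i) (e i) (l₀ i) (δ i) (D i) (π i))
    (E : Subfield ℂ) [NumberField E] (r : ℕ)
    (hr : ∀ i m (s : (F i).S m), r < ((F i).member m s).pol.natDegree) (ε : ℝ)
    (hε : 0 < ε) :
    ∃ (R : ℤ[X]) (m₀ : ℕ), ∀ m ≥ m₀, ({s : ∀ i, (F i).S m |
        ¬ (GSetup Φ σ (fun i => (F i).member m (s i)) m R ∧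
          BalancedOver E r (fun i => ((F i).member m (s i)).Q p m)
            (fun i => ((F i).member m (s i)).pol) R)}.ncard : ℝ) ≤
      ε * ∏ i, (Nat.card ((F i).S m) : ℝ) := by
  classical
  choose o hM using fun i => exists_mdata2 hD hO hE (hF i)
  obtain ⟨S, hSf, hSi, hSE⟩ := exists_spanning E
  obtain ⟨R, hRm, hRs, hR'⟩ := exists_R
    ((((Module.End.finite_hasEigenvalue (W.map (Φ.Fr Y)).toLinearMap).image σ).union
      (Set.finite_singleton (p : ℂ))).union hSf) (by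
        rintro x ((hx | hx) | hx)
        · obtain ⟨μ, hμ, rfl⟩ := hx
          obtain ⟨f, hf, hf0⟩ := hint μ hμ
          exact ⟨f, hf, aeval_sigma σ hf0⟩
        · rw [Set.mem_singleton_iff.1 hx, ← map_natCast (algebraMap ℤ ℂ) p]
          exact isIntegral_algebraMap
        · exact hSi x hx)
  have hR : ∀ μ : W.K, Module.End.HasEigenvalue (W.map (Φ.Fr Y)).toLinearMap μ →
      aeval μ R = 0 := fun μ hμ => aeval_sigma_inv σ (hR' _ (Or.inl (Or.inl ⟨μ, hμ, rfl⟩)))
  have hRp : aeval (p : ℂ) R = 0 := hR' _ (Or.inl (Or.inr rfl))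
  have hRE : ∀ x ∈ E, x ∈ Submodule.span ℚ {z : ℂ | aeval z R = 0} := fun x hx =>
    Submodule.span_mono (fun y hy => hR' y (Or.inr hy)) (hSE x hx)
  obtain ⟨N, hN, hNz⟩ := hUNI (2 * ∑ i, g i)
  refine ⟨R, ?_⟩
  have hempty : ∀ m, (∃ i, IsEmpty ((F i).S m)) → ∀ B : Set (∀ i, (F i).S m),
      (B.ncard : ℝ) ≤ ε * ∏ i, (Nat.card ((F i).S m) : ℝ) := by
    rintro m ⟨i, hi⟩ B
    have : IsEmpty (∀ i, (F i).S m) := ⟨fun s => hi.false (s i)⟩
    rw [Set.eq_empty_of_isEmpty B, Set.ncard_empty, Nat.cast_zero]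
    positivity
  by_cases hgr : ∀ i, r < g i
  swap
  · push Not at hgr
    obtain ⟨i, hi⟩ := hgr
    refine ⟨1, fun m hm => hempty m ⟨i, ⟨fun s => ?_⟩⟩ _⟩
    have h1 := hr i m s
    rw [(hM i).degree m s] at h1
    omega
  have hg : ∀ i, 0 < g i := fun i => lt_of_le_of_lt (Nat.zero_le _) (hgr i)
  choose c hc l₁ hl₁ using fun i => (hM i).dens (hg i) N hN
  obtain ⟨c₀, hc₀, hc₀c⟩ : ∃ c₀ : ℝ, 0 < c₀ ∧ ∀ i, c₀ ≤ c i := by
    rcases isEmpty_or_nonempty I with hI | hI
    · exact ⟨1, one_pos, fun i => hI.elim i⟩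
    · obtain ⟨i, hi⟩ := Finite.exists_min c
      exact ⟨c i, hc i, hi⟩
  set L : ℕ := p + 3 + ∑ i, (l₀ i + l₁ i) with hL
  have hLi : ∀ i, l₀ i + l₁ i ≤ L := fun i => by
    have := Finset.single_le_sum (f := fun i => l₀ i + l₁ i) (fun j _ => Nat.zero_le _)
      (Finset.mem_univ i)
    omega
  -- the primes
  obtain ⟨A, hA, hAs, hAd⟩ := exists_common (I := Option I)
    (fun x => match x with | none => R | some i => D i)
    (fun x => match x with | none => hRm | some i => (hM i).monic)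
    (fun x => match x with | none => hRs | some i => (hM i).separable)
  have hAR : R ∣ A := hAd none
  have hAD : ∀ i, D i ∣ A := fun i => hAd (some i)
  set G : Set ℕ := {l : ℕ | l.Prime ∧ SplitsMod A l} \ {l | l ≤ L} with hG
  have hinf : G.Infinite := (hSPL A hA hAs).sdiff (Set.finite_le_nat L)
  have hGp : ∀ l ∈ G, l.Prime ∧ SplitsMod A l ∧ L < l := fun l hl =>
    ⟨hl.1.1, hl.1.2, not_le.1 hl.2⟩
  have hGD : ∀ i, ∀ l ∈ G, l ∈ {l | l.Prime ∧ l₀ i ≤ l ∧ SplitsMod (D i) l} := by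
    intro i l hl
    obtain ⟨h1, h2, h3⟩ := hGp l hl
    have h4 := hLi i
    exact ⟨h1, by omega, splitsMod_of_dvd (hM i).monic (hAD i) h1 h2⟩
  have hGlp : ∀ l ∈ G, ¬ l ∣ p := by
    intro l hl h
    have h1 := (hGp l hl).2.2
    have h3 := Nat.le_of_dvd hp.pos h
    omega
  have hdens : ∀ i, ∀ l ∈ G, ∀ m : ℕ, c₀ ≤ π i m l (irrSet (g i) l) ∧
      c₀ ≤ π i m l (splitSet (g i) l (p ^ (d i * m))) ∧
      (¬ o i → c₀ ≤ π i m l (flipSet (g i) N l (p ^ (d i * m)))) ∧
      (o i → c₀ ≤ π i m l (flip2Set (g i) N l (p ^ (d i * m))) ∧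
        c₀ ≤ π i m l (fixSet (g i) l)) := by
    intro i l hl m
    have h4 := hLi i
    have h3 := (hGp l hl).2.2
    obtain ⟨h5, h6, h7, h8⟩ := hl₁ i l (hGp l hl).1 (by omega) (hGlp l hl) m
    have h9 := hc₀c i
    exact ⟨h9.trans h5, h9.trans h6, fun h => h9.trans (h7 h),
      fun h => ⟨h9.trans (h8 h).1, h9.trans (h8 h).2⟩⟩
  have hE : ∀ (κ : I × Fin 3) i, ∀ l ∈ G, ∀ m, c₀ ≤ π i m l (evts o d g N p κ i m l) := by
    rintro ⟨i₀, e⟩ i l hl m
    obtain ⟨h1, h2, h3, h4⟩ := hdens i l hl m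
    have huniv : c₀ ≤ π i m l Set.univ :=
      h1.trans ((hM i).mono l (hGp l hl).1 m _ _ (Set.subset_univ _))
    unfold evts
    fin_cases e
    · dsimp only
      split_ifs
      · exact h1
      · exact huniv
    · dsimp only
      split_ifs with hi ho
      · exact (h4 ho).1
      · exact h3 ho
      · exact h2
    · dsimp only
      split_ifs with hi
      · exact (h4 hi.2).2
      · exact huniv
  obtain ⟨m₀, h⟩ := almost_all_gen hS (K := I × Fin 3) F G hinf π
    (fun i l hl l' hl' hll => (hM i).equi l (hGD i l hl) l' (hGD i l' hl') hll)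
    (fun i l hl m E => (hM i).nonneg l (hGp l hl).1 m E)
    (fun i l hl m E => (hM i).le_one l (hGp l hl).1 m E)
    (evts o d g N p) hc₀ hE ε hε
  refine ⟨m₀ + 1, fun m hm => le_trans ?_ (h m (by omega))⟩
  have hm0 : 0 < m := by omega
  refine Nat.cast_le.2 (Set.ncard_le_ncard ?_ (Set.toFinite _))
  intro s hs hpat
  apply hs
  have hO : ∀ i, Fam.IsMember ((F i).member m (s i)) Φ m (n i) (e i) (δ i) :=
    fun i => (hM i).isMember m hm0 (s i)
  have hdeg : ∀ i, ((F i).member m (s i)).pol.natDegree = g i := fun i => (hM i).degree m (s i)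
  have hdim : ∀ i, ((F i).member m (s i)).obj.dim = d i := fun i => (hM i).dim m (s i)
  have hnt := hNT o (fun i => p ^ (d i * m))
    (fun i => ((F i).member m (s i)).pol) R N hN (fun i => pow_pos hp.pos _)
    (fun i => (hO i).monic) (fun i => (hO i).degree_pos) hRm (by
      rintro i z ht ⟨P, hP0, hPd, hPz⟩
      refine hNz z ht ⟨P, hP0, hPd.trans ?_, hPz⟩
      rw [hdeg i]
      exact Nat.mul_le_mul_left 2 (Finset.single_le_sum (fun j _ => Nat.zero_le _)
        (Finset.mem_univ i)))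
    (by
      intro i
      obtain ⟨l, hl, h1⟩ := hpat (i, 0)
      have h2 := h1 i
      unfold evts at h2
      dsimp only at h2
      rw [if_pos rfl] at h2
      exact ⟨l, (hGp l hl).1, by rw [hdeg i]; exact h2⟩)
    (by
      intro i₀ ho
      obtain ⟨l, hl, h1⟩ := hpat (i₀, 1)
      have h3 := hGp l hl
      refine ⟨l, h3.1, by omega, fun i h => hGlp l hl (h3.1.dvd_of_dvd_pow h),
        splitsMod_of_dvd hRm hAR h3.1 h3.2.1, ?_, fun i hi => ?_⟩
      · have h2 := h1 i₀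
        unfold evts at h2
        dsimp only at h2
        rw [if_pos rfl, if_neg ho] at h2
        rw [hdeg i₀]
        exact h2
      · have h2 := h1 i
        unfold evts at h2
        dsimp only at h2
        rw [if_neg hi] at h2
        rw [hdeg i]
        exact h2)
    (by
      intro i₀ ho
      refine ⟨by rw [hdeg i₀]; exact (hM i₀).rank ho, ?_, ?_⟩
      · obtain ⟨l, hl, h1⟩ := hpat (i₀, 2)
        have h2 := h1 i₀
        unfold evts at h2
        dsimp only at h2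
        rw [if_pos ⟨rfl, ho⟩] at h2
        exact ⟨l, (hGp l hl).1, by rw [hdeg i₀]; exact h2⟩
      · obtain ⟨l, hl, h1⟩ := hpat (i₀, 1)
        have h3 := hGp l hl
        refine ⟨l, h3.1, by omega, fun i h => hGlp l hl (h3.1.dvd_of_dvd_pow h),
          splitsMod_of_dvd hRm hAR h3.1 h3.2.1, ?_, fun i hi => ?_⟩
        · have h2 := h1 i₀
          unfold evts at h2
          dsimp only at h2
          rw [if_pos rfl, if_pos ho] at h2
          rw [hdeg i₀]
          exact h2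
        · have h2 := h1 i
          unfold evts at h2
          dsimp only at h2
          rw [if_neg hi] at h2
          rw [hdeg i]
          exact h2)
  have hnt3 := nt3 hFL hFL2 hFX E r hRE o (fun i => p ^ (d i * m))
    (fun i => ((F i).member m (s i)).pol) (fun i => by rw [hdeg i]; exact hgr i) N hN (fun i => pow_pos hp.pos _)
    (fun i => (hO i).monic) (fun i => (hO i).degree_pos) hRm (by
      rintro i z ht ⟨P, hP0, hPd, hPz⟩
      refine hNz z ht ⟨P, hP0, hPd.trans ?_, hPz⟩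
      rw [hdeg i]
      exact Nat.mul_le_mul_left 2 (Finset.single_le_sum (fun j _ => Nat.zero_le _)
        (Finset.mem_univ i)))
    (by
      intro i
      obtain ⟨l, hl, h1⟩ := hpat (i, 0)
      have h2 := h1 i
      unfold evts at h2
      dsimp only at h2
      rw [if_pos rfl] at h2
      exact ⟨l, (hGp l hl).1, by rw [hdeg i]; exact h2⟩)
    (by
      intro i₀ ho
      obtain ⟨l, hl, h1⟩ := hpat (i₀, 1)
      have h3 := hGp l hl
      refine ⟨l, h3.1, by omega, fun i h => hGlp l hl (h3.1.dvd_of_dvd_pow h),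
        splitsMod_of_dvd hRm hAR h3.1 h3.2.1, ?_, fun i hi => ?_⟩
      · have h2 := h1 i₀
        unfold evts at h2
        dsimp only at h2
        rw [if_pos rfl, if_neg ho] at h2
        rw [hdeg i₀]
        exact h2
      · have h2 := h1 i
        unfold evts at h2
        dsimp only at h2
        rw [if_neg hi] at h2
        rw [hdeg i]
        exact h2)
    (by
      intro i₀ ho
      refine ⟨by rw [hdeg i₀]; exact (hM i₀).rank ho, ?_, ?_⟩
      · obtain ⟨l, hl, h1⟩ := hpat (i₀, 2)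
        have h2 := h1 i₀
        unfold evts at h2
        dsimp only at h2
        rw [if_pos ⟨rfl, ho⟩] at h2
        exact ⟨l, (hGp l hl).1, by rw [hdeg i₀]; exact h2⟩
      · obtain ⟨l, hl, h1⟩ := hpat (i₀, 1)
        have h3 := hGp l hl
        refine ⟨l, h3.1, by omega, fun i h => hGlp l hl (h3.1.dvd_of_dvd_pow h),
          splitsMod_of_dvd hRm hAR h3.1 h3.2.1, ?_, fun i hi => ?_⟩
        · have h2 := h1 i₀
          unfold evts at h2
          dsimp only at h2
          rw [if_pos rfl, if_pos ho] at h2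
          rw [hdeg i₀]
          exact h2
        · have h2 := h1 i
          unfold evts at h2
          dsimp only at h2
          rw [if_neg hi] at h2
          rw [hdeg i]
          exact h2)
  have hQ : ∀ i, ((F i).member m (s i)).Q p m = p ^ (d i * m) := by
    intro i
    rw [Piece.Q, hdim i]
  have hbal : Balanced (fun i => ((F i).member m (s i)).Q p m)
      (fun i => ((F i).member m (s i)).pol) R := by
    have e' : (fun i => ((F i).member m (s i)).Q p m) = fun i => p ^ (d i * m) := funext hQ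
    rw [e']
    exact hnt.1
  have hbalE : BalancedOver E r (fun i => ((F i).member m (s i)).Q p m)
      (fun i => ((F i).member m (s i)).pol) R := by
    have e' : (fun i => ((F i).member m (s i)).Q p m) = fun i => p ^ (d i * m) := funext hQ
    rw [e']
    exact hnt3
  have hsep : ∀ i, ((weil (((F i).member m (s i)).Q p m) ((F i).member m (s i)).pol).map
      (Int.castRingHom ℚ)).Separable := by
    intro i
    rw [hQ i]
    exact hnt.2 i
  have hQp : ∀ i, 0 < ((F i).member m (s i)).Q p m := fun i => by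
    rw [hQ i]
    exact pow_pos hp.pos _
  have hno : ∀ i, ∀ lam : W.K, aeval lam (weil (((F i).member m (s i)).Q p m)
      ((F i).member m (s i)).pol) = 0 → lam ^ 2 ≠ (((F i).member m (s i)).Q p m : W.K) := by
    intro i lam hl h
    refine _root_.Pool.Agent.W458.MF.G.sep_nat hQp (fun i => (hO i).monic) hbal hsep i two_pos (aeval_sigma σ hl) (hQp i) ?_
    rw [← map_pow, h, map_natCast]
  have heven : ∀ i, e i ≠ 0 → ((F i).member m (s i)).obj.dim = 2 * n i ∧
      (e i = 1 ∨ e i = 2) := fun i he => by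
    rw [hdim i]
    exact (hM i).even he
  refine ⟨?_, hbalE⟩
  exact {
    hp := hp.one_lt
    hm := hm0
    frob := fun i => (hO i).frobenius
    sub_le := fun i => (hO i).sub_le
    gen := fun i => (hO i).generated
    monic := fun i => (hO i).monic
    span := fun i => member_span hp.one_lt (hO i) (heven i) (hsep i) (hno i)
    uniq := fun i lam x y hx hy => member_uniq hp.one_lt (hO i) (heven i) (hsep i) (hno i) lam x y
      hx.mem hy.mem hx.eig hy.eig hx.ne
    hR := hR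
    hRp := hRp
    bal := hbal
    sep := hsep }


end Pool.Agent.W458.RK
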